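import Pool.Agent.U987.BI.Euc

/-!
# Diffeomorphisms of a manifold supported in the image of `ℝⁿ`
-/

set_option autoImplicit false
set_option linter.unusedSectionVars false

open Set Filter Topology Metric Function
open scoped Manifold ContDiff

noncomputable section

namespace Pool.Agent.U987.BI

open Pool.Agent.Y522

variable {n : ℕ} {X : Type} [TopologicalSpace X] [T2Space X] [ChartedSpace (E n) X]
  [IsManifold (𝓡 n) ∞ X]

/-- extension of a compactly supported isotopy of `ℝⁿ` by the identity -/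
theorem ext_isotopy {c : E n → X} (hci : Injective c) (hcl : ∀ y, LD n c y)
    {F : ℝ × E n → E n} (hF : ContDiff ℝ ∞ F)
    (hFt : ∀ t, Bijective (fun x => F (t, x)) ∧ ∀ x, LD n (fun x => F (t, x)) x) {R : ℝ}
    (hR : ∀ t x, R ≤ ‖x‖ → F (t, x) = x) :
    ∃ K : ℝ × X → X, ContMDiff ((𝓘(ℝ, ℝ)).prod (𝓡 n)) (𝓡 n) ∞ K ∧
      (∀ t, Bijective (fun x => K (t, x)) ∧ ∀ x, LD n (fun x => K (t, x)) x) ∧
      (∀ t y, K (t, c y) = c (F (t, y))) ∧ ∀ t x, x ∉ range c → K (t, x) = x := by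
  classical
  have hcc : Continuous c := continuous_iff_continuousAt.2 fun y => (hcl y).continuousAt
  obtain ⟨g, hg⟩ : ∃ g : X → E n, ∀ y, g (c y) = y :=
    ⟨Function.invFun c, fun y => Function.leftInverse_invFun hci y⟩
  have hgl : ∀ y, LD n g (c y) := fun y =>
    LD.inverse isOpen_univ (fun x _ => hcl x) (fun x _ => hg x) (mem_univ y)
  have hop : IsOpen (range c) := by
    rw [← image_univ]
    exact isOpen_image_of_LD isOpen_univ fun x _ => hcl x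
  obtain ⟨C, hC⟩ : ∃ C, C = c '' closedBall 0 R := ⟨_, rfl⟩
  have hCc : IsClosed C := by
    rw [hC]
    exact ((isCompact_closedBall _ _).image hcc).isClosed
  obtain ⟨K, hK⟩ : ∃ K : ℝ × X → X, K = fun q => if q.2 ∈ range c then c (F (q.1, g q.2)) else q.2 :=
    ⟨_, rfl⟩
  have hK1 : ∀ t y, K (t, c y) = c (F (t, y)) := by
    intro t y
    rw [hK]
    simp only [mem_range_self, if_true, hg]
  have hK2 : ∀ t x, x ∉ range c → K (t, x) = x := by
    intro t x hx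
    rw [hK]
    simp only [hx, if_false]
  have hK3 : ∀ t x, x ∉ C → K (t, x) = x := by
    intro t x hx
    by_cases h : x ∈ range c
    · obtain ⟨y, rfl⟩ := h
      have hy : R ≤ ‖y‖ := by
        by_contra h1
        apply hx
        rw [hC]
        exact ⟨y, by rw [mem_closedBall_zero_iff]; exact (not_le.1 h1).le, rfl⟩
      rw [hK1, hR t y hy]
    · exact hK2 t x h
  have hCo : IsOpen Cᶜ := hCc.isOpen_compl
  refine ⟨K, ?_, fun t => ⟨⟨?_, ?_⟩, fun x => ?_⟩, hK1, hK2⟩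
  · rintro ⟨t, x⟩
    by_cases hx : x ∈ range c
    · obtain ⟨y, rfl⟩ := hx
      have hev : K =ᶠ[𝓝 (t, c y)] fun q => c (F (q.1, g q.2)) := by
        have h1 : ∀ᶠ q : ℝ × X in 𝓝 (t, c y), q.2 ∈ range c :=
          continuous_snd.continuousAt.eventually (hop.mem_nhds (mem_range_self y))
        filter_upwards [h1] with q hq
        rw [hK]
        simp only [hq, if_true]
      have h2 : ContMDiffAt ((𝓘(ℝ, ℝ)).prod (𝓡 n)) (𝓡 n) ∞ (fun q : ℝ × X => g q.2) (t, c y) :=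
        ContMDiffAt.comp (I' := 𝓡 n) (g := g) (f := fun q : ℝ × X => q.2) (t, c y)
          (hgl y).contMDiffAt contMDiffAt_snd
      have h3 : ContMDiffAt ((𝓘(ℝ, ℝ)).prod (𝓡 n)) ((𝓘(ℝ, ℝ)).prod (𝓡 n)) ∞
          (fun q : ℝ × X => (q.1, g q.2)) (t, c y) := contMDiffAt_fst.prodMk h2
      have h4 : ContMDiffAt ((𝓘(ℝ, ℝ)).prod (𝓡 n)) (𝓡 n) ∞ F (t, y) := by
        have h5 := hF.contDiffAt (x := (t, y))
        rw [← contMDiffAt_iff_contDiffAt, modelWithCornersSelf_prod, ← chartedSpaceSelf_prod] at h5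
        exact h5
      have h6 : ContMDiffAt ((𝓘(ℝ, ℝ)).prod (𝓡 n)) (𝓡 n) ∞ (fun q : ℝ × X => F (q.1, g q.2))
          (t, c y) := by
        refine ContMDiffAt.comp (I' := (𝓘(ℝ, ℝ)).prod (𝓡 n)) (g := F)
          (f := fun q : ℝ × X => (q.1, g q.2)) (t, c y) ?_ h3
        simp only [hg]
        exact h4
      have h7 : ContMDiffAt ((𝓘(ℝ, ℝ)).prod (𝓡 n)) (𝓡 n) ∞ (fun q : ℝ × X => c (F (q.1, g q.2)))
          (t, c y) :=
        ContMDiffAt.comp (I' := 𝓡 n) (g := c) (f := fun q : ℝ × X => F (q.1, g q.2)) (t, c y)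
          (hcl _).contMDiffAt h6
      exact h7.congr_of_eventuallyEq hev
    · have hxC : x ∈ Cᶜ := by
        intro h1
        rw [hC] at h1
        obtain ⟨y, -, rfl⟩ := h1
        exact hx (mem_range_self y)
      have hev : K =ᶠ[𝓝 (t, x)] fun q => q.2 := by
        have h1 : ∀ᶠ q : ℝ × X in 𝓝 (t, x), q.2 ∈ Cᶜ :=
          continuous_snd.continuousAt.eventually (hCo.mem_nhds hxC)
        filter_upwards [h1] with q hq
        obtain ⟨t', x'⟩ := q
        exact hK3 t' x' hq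
      exact contMDiffAt_snd.congr_of_eventuallyEq hev
  · intro x x' hxx
    simp only at hxx
    by_cases hx : x ∈ range c <;> by_cases hx' : x' ∈ range c
    · obtain ⟨y, rfl⟩ := hx
      obtain ⟨y', rfl⟩ := hx'
      rw [hK1, hK1] at hxx
      rw [(hFt t).1.1 (hci hxx)]
    · obtain ⟨y, rfl⟩ := hx
      rw [hK1, hK2 t x' hx'] at hxx
      exact absurd (hxx ▸ mem_range_self _) hx'
    · obtain ⟨y', rfl⟩ := hx'
      rw [hK1, hK2 t x hx] at hxx
      exact absurd (hxx ▸ mem_range_self _) hx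
    · rw [hK2 t x hx, hK2 t x' hx'] at hxx
      exact hxx
  · intro x
    by_cases hx : x ∈ range c
    · obtain ⟨y, rfl⟩ := hx
      obtain ⟨z, hz⟩ := (hFt t).1.2 y
      simp only at hz
      exact ⟨c z, by simp only; rw [hK1, hz]⟩
    · exact ⟨x, hK2 t x hx⟩
  · by_cases hx : x ∈ range c
    · obtain ⟨y, rfl⟩ := hx
      have h1 : LD n (fun x => c (F (t, g x))) (c y) := by
        refine LD.comp_fun (g := c) (f := fun x => F (t, g x)) (hcl _) ?_
        refine LD.comp_fun (g := fun y => F (t, y)) (f := g) ?_ (hgl y)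
        exact (hFt t).2 _
      refine h1.congr ?_
      filter_upwards [hop.mem_nhds (mem_range_self y)] with x hx
      rw [hK]
      simp only [hx, if_true]
    · have hxC : x ∈ Cᶜ := by
        intro h1
        rw [hC] at h1
        obtain ⟨y, -, rfl⟩ := h1
        exact hx (mem_range_self y)
      refine (LD.id x).congr ?_
      filter_upwards [hCo.mem_nhds hxC] with x' hx'
      exact hK3 t x' hx'

/-- **Diffeomorphisms of small distortion in the image of `ℝⁿ`.** -/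
theorem isotopy_chart {a ρ : ℝ} (ha : 0 < a) (hρ : 1 ≤ ρ)
    (hc : (ρ ^ 2 - 1) * Real.sqrt n < 1 + ρ ^ 2) {c : E n → X} (hci : Injective c)
    (hcl : ∀ y, LD n c y) {ψ : E n → E n} (hψ : ∀ x, LD n ψ x) {R : ℝ}
    (hR : ∀ x, R ≤ ‖x‖ → ψ x = x) (hlow : ∀ p q, a * ‖p - q‖ ≤ ‖ψ p - ψ q‖)
    (hup : ∀ p q, ‖ψ p - ψ q‖ ≤ ρ * (a * ‖p - q‖)) {φ : X → X} (h1 : ∀ y, φ (c y) = c (ψ y))
    (h2 : ∀ x, x ∉ range c → φ x = x) :
    ∃ K : ℝ × X → X, ContMDiff ((𝓘(ℝ, ℝ)).prod (𝓡 n)) (𝓡 n) ∞ K ∧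
      (∀ t, Bijective (fun x => K (t, x)) ∧ ∀ x, LD n (fun x => K (t, x)) x) ∧
      (∀ x, K (0, x) = x) ∧ ∀ x, K (1, x) = φ x := by
  obtain ⟨F, hF, hFt, hF0, hF1, R', hR'⟩ := isotopy_euc ha hρ hc hψ hR hlow hup
  obtain ⟨K, hK, hKt, hK1, hK2⟩ := ext_isotopy hci hcl hF hFt hR'
  refine ⟨K, hK, hKt, fun x => ?_, fun x => ?_⟩
  · by_cases hx : x ∈ range c
    · obtain ⟨y, rfl⟩ := hx
      rw [hK1, hF0]
    · exact hK2 0 x hx
  · by_cases hx : x ∈ range c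
    · obtain ⟨y, rfl⟩ := hx
      rw [hK1, hF1, h1]
    · rw [hK2 1 x hx, h2 x hx]

/-- composition of isotopies -/
theorem comp_isotopy {φ₁ φ₂ : X → X} (H₁ : ∃ K : ℝ × X → X,
      ContMDiff ((𝓘(ℝ, ℝ)).prod (𝓡 n)) (𝓡 n) ∞ K ∧
      (∀ t, Bijective (fun x => K (t, x)) ∧ ∀ x, LD n (fun x => K (t, x)) x) ∧
      (∀ x, K (0, x) = x) ∧ ∀ x, K (1, x) = φ₁ x) (H₂ : ∃ K : ℝ × X → X,
      ContMDiff ((𝓘(ℝ, ℝ)).prod (𝓡 n)) (𝓡 n) ∞ K ∧
      (∀ t, Bijective (fun x => K (t, x)) ∧ ∀ x, LD n (fun x => K (t, x)) x) ∧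
      (∀ x, K (0, x) = x) ∧ ∀ x, K (1, x) = φ₂ x) : ∃ K : ℝ × X → X,
      ContMDiff ((𝓘(ℝ, ℝ)).prod (𝓡 n)) (𝓡 n) ∞ K ∧
      (∀ t, Bijective (fun x => K (t, x)) ∧ ∀ x, LD n (fun x => K (t, x)) x) ∧
      (∀ x, K (0, x) = x) ∧ ∀ x, K (1, x) = φ₁ (φ₂ x) := by
  obtain ⟨K₁, a1, a2, a3, a4⟩ := H₁
  obtain ⟨K₂, b1, b2, b3, b4⟩ := H₂
  refine ⟨fun q => K₁ (q.1, K₂ q), ?_, fun t => ⟨?_, fun x => ?_⟩, fun x => ?_, fun x => ?_⟩
  · exact a1.comp (contMDiff_fst.prodMk b1)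
  · exact (a2 t).1.comp (b2 t).1
  · exact LD.comp_fun (g := fun x => K₁ (t, x)) (f := fun x => K₂ (t, x)) ((a2 t).2 _) ((b2 t).2 x)
  · simp only [b3, a3]
  · simp only [b4, a4]

end Pool.Agent.U987.BI
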