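import Pool.Agent.U211.BLV.Der

/-!
# The derivative of the mollification of a map which is bi-Lipschitz on a submanifold
-/

set_option autoImplicit false
set_option linter.unusedSectionVars false

open Set Filter Topology Metric Function MeasureTheory
open scoped Manifold ContDiff

noncomputable section

namespace Pool.Agent.U987.BI

open Pool.Agent.Y522 Pool.Agent.U211.BLV
open Pool.Agent.U211.BL hiding Mol LL LL_apply moll_congr moll_const moll_cont moll_conv moll_pos moll_joint moll_null mollS moll_hasFDerivAt polar main_est point_est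

variable {m d : ℕ}

/-- four points -/
theorem four {A A' C F : E d} {a h ρ η x y q σ : ℝ} (ha : 0 < a) (hh : 0 < h) (hρ : 1 ≤ ρ)
    (hη0 : 0 ≤ η) (hη1 : η ≤ 1) (hx0 : 0 ≤ x) (_hy0 : 0 ≤ y) (hx3 : x ≤ 3) (hy3 : y ≤ 3)
    (hq : q ≤ 1) (hx2 : x ^ 2 = q + 1 + 2 * σ) (hy2 : y ^ 2 = q + 1 - 2 * σ)
    (h1 : a * (h * x - η * h) ≤ ‖A - F‖) (h2 : a * (h * x - η * h) ≤ ‖A' - C‖)
    (h3 : ‖A - C‖ ≤ ρ * (a * (h * y + η * h))) (h4 : ‖A' - F‖ ≤ ρ * (a * (h * y + η * h))) :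
    a ^ 2 * h ^ 2 * (2 * (1 + ρ ^ 2) * σ - (2 * (ρ ^ 2 - 1) + 13 * ρ ^ 2 * η)) ≤
      inner ℝ (A - A') (C - F) := by
  have lowb : ∀ r : ℝ, 0 ≤ r → a * (h * x - η * h) ≤ r →
      a ^ 2 * h ^ 2 * (x ^ 2 - 6 * η) ≤ r ^ 2 := by
    intro r hr hd
    have h2 : x - η ≤ r / (a * h) := by
      rw [le_div_iff₀ (by positivity)]
      calc (x - η) * (a * h) = a * (h * x - η * h) := by ring
        _ ≤ r := hd
    have h3 := sq_lower (by positivity) hx0 hη0 h2
    have h4 : (r / (a * h)) ^ 2 = r ^ 2 / (a ^ 2 * h ^ 2) := by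
      rw [div_pow, mul_pow]
    rw [h4, le_div_iff₀ (by positivity)] at h3
    have h5 : x ^ 2 - 6 * η ≤ x ^ 2 - 2 * η * x := by nlinarith
    have h6 := mul_le_mul_of_nonneg_right h5 (by positivity : 0 ≤ a ^ 2 * h ^ 2)
    linarith
  have upb : ∀ r : ℝ, 0 ≤ r → r ≤ ρ * (a * (h * y + η * h)) →
      r ^ 2 ≤ a ^ 2 * h ^ 2 * (ρ ^ 2 * (y ^ 2 + 7 * η)) := by
    intro r hr hd
    calc r ^ 2 ≤ (ρ * (a * (h * y + η * h))) ^ 2 := by gcongr
      _ = a ^ 2 * h ^ 2 * (ρ ^ 2 * (y + η) ^ 2) := by ring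
      _ ≤ a ^ 2 * h ^ 2 * (ρ ^ 2 * (y ^ 2 + 7 * η)) := by
          have : (y + η) ^ 2 ≤ y ^ 2 + 7 * η := by nlinarith
          gcongr
  have e1 := lowb _ (norm_nonneg _) h1
  have e2 := lowb _ (norm_nonneg _) h2
  have e3 := upb _ (norm_nonneg _) h3
  have e4 := upb _ (norm_nonneg _) h4
  have h7 := Pool.Agent.U211.BLV.polar A A' C F
  have hfin : 2 * (1 + ρ ^ 2) * σ - (2 * (ρ ^ 2 - 1) + 13 * ρ ^ 2 * η) ≤
      (x ^ 2 - 6 * η) - ρ ^ 2 * (y ^ 2 + 7 * η) := by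
    rw [hx2, hy2]
    have h8 : 0 ≤ ρ ^ 2 - 1 := by nlinarith
    nlinarith [mul_nonneg h8 (sub_nonneg.2 hq), mul_nonneg h8 hη0]
  have h9 := mul_le_mul_of_nonneg_left hfin (by positivity : 0 ≤ a ^ 2 * h ^ 2)
  refine h9.trans ?_
  have h10 : a ^ 2 * h ^ 2 * (x ^ 2 - 6 * η - ρ ^ 2 * (y ^ 2 + 7 * η)) =
      a ^ 2 * h ^ 2 * (x ^ 2 - 6 * η) - a ^ 2 * h ^ 2 * (ρ ^ 2 * (y ^ 2 + 7 * η)) := by ring
  rw [h10]
  linarith

variable {r₀ : ℝ} (K : Ker m r₀)

/-- the estimate of the derivative, abstractly -/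
theorem main_abs (hr0 : 0 < r₀) {G : E m → E d} {z w : E m} {e : E d} {h M c₁ B : ℝ}
    (hh : 0 < h) (hw : ‖w‖ = 1) (hGc : ContinuousOn G (closedBall z h)) (hM : 0 ≤ M) (hB0 : 0 ≤ B)
    (hptt : ∀ s : E m, ‖s‖ ≤ 1 → M * (c₁ * inner ℝ s w - B) ≤
      inner ℝ (G (z + h • s) - G (z + h • rf w s)) e) :
    M / 2 * (c₁ - B * (Real.sqrt m / r₀)) ≤
      ∫ s, K.g s * (inner ℝ s w * inner ℝ (G (z + h • s)) e) := by
  have hcont : ContinuousOn (fun s => G (z + h • s)) (closedBall (0 : E m) 1) := by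
    apply hGc.comp (by fun_prop)
    intro s hs
    rw [mem_closedBall_zero_iff] at hs
    rw [mem_closedBall, dist_eq_norm, add_sub_cancel_left, norm_smul, Real.norm_of_nonneg hh.le]
    nlinarith
  have hrfc : Continuous (rf w) := (rfE w hw).continuous
  have hcont' : ContinuousOn (fun s => G (z + h • rf w s)) (closedBall (0 : E m) 1) := by
    apply hcont.comp hrfc.continuousOn
    intro s hs
    rw [mem_closedBall_zero_iff] at hs ⊢
    rwa [rf_norm hw]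
  obtain ⟨I, hI⟩ : ∃ I : ℝ, I = ∫ s, K.g s * (inner ℝ s w * inner ℝ (G (z + h • s)) e) := ⟨_, rfl⟩
  have hI1 : Integrable fun s => K.g s * (inner ℝ s w * inner ℝ (G (z + h • s)) e) := by
    apply K.g_mul_integrable
    apply ContinuousOn.mul (by fun_prop)
    exact hcont.inner continuousOn_const
  have hI2 : Integrable fun s => K.g s * (inner ℝ s w * inner ℝ (G (z + h • rf w s)) e) := by
    apply K.g_mul_integrable
    apply ContinuousOn.mul (by fun_prop)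
    exact hcont'.inner continuousOn_const
  have hrefl : ∫ s, K.g s * (inner ℝ s w * inner ℝ (G (z + h • rf w s)) e) = -I := by
    rw [hI, ← integral_rf hw, ← integral_neg]
    congr 1
    funext s
    rw [K.grad (rf w s) s (rf_norm hw s), rf_inner hw, rf_rf hw]
    ring
  have h2I : 2 * I = ∫ s, K.g s * (inner ℝ s w *
      inner ℝ (G (z + h • s) - G (z + h • rf w s)) e) := by
    have h1 : ∀ s, K.g s * (inner ℝ s w * inner ℝ (G (z + h • s) - G (z + h • rf w s)) e) =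
        K.g s * (inner ℝ s w * inner ℝ (G (z + h • s)) e) -
          K.g s * (inner ℝ s w * inner ℝ (G (z + h • rf w s)) e) := by
      intro s
      rw [inner_sub_left]
      ring
    simp only [h1]
    rw [integral_sub hI1 hI2, hrefl, ← hI]
    ring
  have hpt : ∀ s, M * (c₁ * (K.g s * (inner ℝ s w) ^ 2) -
      B * (K.g s * |inner ℝ s w|)) ≤ K.g s * (inner ℝ s w *
      inner ℝ (G (z + h • s) - G (z + h • rf w s)) e) := by
    intro s
    by_cases hg : K.g s = 0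
    · rw [hg]
      simp
    have hs : ‖s‖ ≤ 1 := by
      by_contra hc
      exact hg (K.gzero s (not_le.1 hc))
    have h1 : M * (c₁ * (K.g s * (inner ℝ s w) ^ 2) -
        B * (K.g s * |inner ℝ s w|)) = K.g s * (|inner ℝ s w| * (M *
          (c₁ * |inner ℝ s w| - B))) := by
      have : (inner ℝ s w : ℝ) ^ 2 = |inner ℝ s w| ^ 2 := (sq_abs _).symm
      rw [this]
      ring
    rw [h1]
    apply mul_le_mul_of_nonneg_left _ (K.gnonneg s)
    rcases le_total 0 (inner ℝ s w : ℝ) with hσ | hσ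
    · rw [abs_of_nonneg hσ]
      apply mul_le_mul_of_nonneg_left _ hσ
      exact hptt s hs
    · rw [abs_of_nonpos hσ]
      have h3 : (inner ℝ s w : ℝ) * inner ℝ (G (z + h • s) - G (z + h • rf w s)) e =
          (-inner ℝ s w) * inner ℝ (G (z + h • rf w s) - G (z + h • rf w (rf w s))) e := by
        rw [rf_rf hw, ← neg_sub (G (z + h • s)) (G (z + h • rf w s)), inner_neg_left]
        ring
      rw [h3]
      apply mul_le_mul_of_nonneg_left _ (by linarith)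
      rw [← rf_inner hw]
      exact hptt _ (by rw [rf_norm hw]; exact hs)
  have hJ1 : Integrable fun s => K.g s * (inner ℝ s w : ℝ) ^ 2 := K.g_mul_integrable (by fun_prop)
  have hJ2 : Integrable fun s => K.g s * |(inner ℝ s w : ℝ)| := K.g_mul_integrable (by fun_prop)
  have hJ3 : Integrable fun s => K.g s * (inner ℝ s w *
      inner ℝ (G (z + h • s) - G (z + h • rf w s)) e) := by
    apply K.g_mul_integrable
    apply ContinuousOn.mul (by fun_prop)
    exact (hcont.sub hcont').inner continuousOn_const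
  have hle := integral_mono (((hJ1.const_mul c₁).sub (hJ2.const_mul B)).const_mul M) hJ3 hpt
  rw [← h2I] at hle
  have hcomp : ∫ s, M * (c₁ * (K.g s * (inner ℝ s w) ^ 2) -
      B * (K.g s * |inner ℝ s w|)) = M * (c₁ - B * ∫ s, K.g s * |inner ℝ s w|) := by
    rw [integral_const_mul, integral_sub (hJ1.const_mul _) (hJ2.const_mul _), integral_const_mul,
      integral_const_mul, K.int_sq, hw, one_pow, mul_one]
  have hR := K.int_abs_le hr0 hw
  have h5 : M * (c₁ - B * (Real.sqrt m / r₀)) ≤ M * (c₁ - B * ∫ s, K.g s * |inner ℝ s w|) := by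
    have h6 := mul_le_mul_of_nonneg_left hR hB0
    apply mul_le_mul_of_nonneg_left _ hM
    linarith
  have h7 : M * (c₁ - B * ∫ s, K.g s * |inner ℝ s w|) ≤ 2 * I := by
    rw [← hcomp]
    exact hle
  rw [← hI]
  linarith

/-- **The derivative does not vanish**: `P` is a map which is close to the linear projection `S`,
the map `H` is bi-Lipschitz with respect to `P`, and `Q` is close to the identity on the
differences of the values of `H`. -/
theorem der_ne (hr0 : 0 < r₀) {H : E m → E d} (hH : Continuous H) {P : E m → E m} {z w : E m}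
    {δ a ρ η ξ : ℝ} (hδ : 0 < δ) (ha : 0 < a) (hρ : 1 ≤ ρ) (hη0 : 0 ≤ η) (hη1 : η ≤ 1)
    (hξ0 : 0 ≤ ξ) (hw : ‖w‖ = 1) {S : E m →L[ℝ] E m} (hS1 : ∀ v, ‖S v‖ ≤ ‖v‖) (hSw : S w = w)
    (hSi : ∀ v, (inner ℝ (S v) w : ℝ) = inner ℝ v w) {Q : E d →L[ℝ] E d}
    (hP : ∀ p q, ‖p - z‖ ≤ δ → ‖q - z‖ ≤ δ → ‖P p - P q - S (p - q)‖ ≤ η / 2 * ‖p - q‖)
    (hlow : ∀ p q, ‖p - z‖ ≤ δ → ‖q - z‖ ≤ δ → a * ‖P p - P q‖ ≤ ‖H p - H q‖)
    (hup : ∀ p q, ‖p - z‖ ≤ δ → ‖q - z‖ ≤ δ → ‖H p - H q‖ ≤ ρ * (a * ‖P p - P q‖))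
    (hQ : ∀ p q, ‖p - z‖ ≤ δ → ‖q - z‖ ≤ δ → ‖Q (H p - H q) - (H p - H q)‖ ≤ ξ * ‖H p - H q‖)
    (hcond : (2 * (ρ ^ 2 - 1) + 13 * ρ ^ 2 * η + 9 * ρ ^ 2 * ξ) * (Real.sqrt m / r₀) <
      2 * (1 + ρ ^ 2))
    {D : E m →L[ℝ] E d}
    (hD : ∀ w, D w = δ⁻¹ • ∫ s, (K.g s * inner ℝ s w) • H (z + δ • s)) : Q (D w) ≠ 0 := by
  have hball : ∀ t : E m, ‖t‖ ≤ 1 → ‖z + δ • t - z‖ ≤ δ := by
    intro t ht
    rw [add_sub_cancel_left, norm_smul, Real.norm_of_nonneg hδ.le]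
    nlinarith
  obtain ⟨C, hC⟩ : ∃ C, C = H (z + δ • w) := ⟨_, rfl⟩
  obtain ⟨F, hF⟩ : ∃ F, F = H (z + δ • (-w)) := ⟨_, rfl⟩
  obtain ⟨e, he⟩ : ∃ e, e = C - F := ⟨_, rfl⟩
  have hwm : ‖-w‖ ≤ 1 := by rw [norm_neg, hw]
  have hbig : ∀ s t : E m, ‖s‖ ≤ 1 → ‖t‖ ≤ 1 →
      ‖H (z + δ • s) - H (z + δ • t)‖ ≤ 3 * ρ * a * δ := by
    intro s t hs ht
    have h1 := hP _ _ (hball s hs) (hball t ht)
    have h2 : z + δ • s - (z + δ • t) = δ • (s - t) := by rw [smul_sub]; abel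
    have h3 : ‖z + δ • s - (z + δ • t)‖ ≤ 2 * δ := by
      rw [h2, norm_smul, Real.norm_of_nonneg hδ.le]
      have := norm_sub_le s t
      nlinarith
    have h4 : ‖P (z + δ • s) - P (z + δ • t)‖ ≤ 3 * δ := by
      have h5 : P (z + δ • s) - P (z + δ • t) = (P (z + δ • s) - P (z + δ • t) -
        S (z + δ • s - (z + δ • t))) + S (z + δ • s - (z + δ • t)) := by abel
      rw [h5]
      refine (norm_add_le _ _).trans ?_
      have h6 := hS1 (z + δ • s - (z + δ • t))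
      have h7 := norm_nonneg (z + δ • s - (z + δ • t))
      nlinarith
    calc ‖H (z + δ • s) - H (z + δ • t)‖ ≤ ρ * (a * ‖P (z + δ • s) - P (z + δ • t)‖) :=
          hup _ _ (hball s hs) (hball t ht)
      _ ≤ ρ * (a * (3 * δ)) := by gcongr
      _ = 3 * ρ * a * δ := by ring
  -- comparison of distances
  have hcmp : ∀ t v : E m, ‖t‖ ≤ 1 → ‖v‖ ≤ 1 →
      δ * ‖S (t - v)‖ - η * δ ≤ ‖P (z + δ • t) - P (z + δ • v)‖ ∧
      ‖P (z + δ • t) - P (z + δ • v)‖ ≤ δ * ‖S (t - v)‖ + η * δ := by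
    intro t v ht hv
    have h1 := hP _ _ (hball t ht) (hball v hv)
    have h2 : z + δ • t - (z + δ • v) = δ • (t - v) := by rw [smul_sub]; abel
    rw [h2, norm_smul, Real.norm_of_nonneg hδ.le] at h1
    have h3 : ‖t - v‖ ≤ 2 := (norm_sub_le _ _).trans (by linarith)
    have h4 : η / 2 * (δ * ‖t - v‖) ≤ η * δ := by
      have h5 : η / 2 * (δ * ‖t - v‖) ≤ η / 2 * (δ * 2) := by gcongr
      linarith
    have h6 : ‖S (δ • (t - v))‖ = δ * ‖S (t - v)‖ := by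
      rw [map_smul, norm_smul, Real.norm_of_nonneg hδ.le]
    obtain ⟨u, hu⟩ : ∃ u, u = P (z + δ • t) - P (z + δ • v) := ⟨_, rfl⟩
    rw [← hu] at h1 ⊢
    rw [← h6]
    constructor
    · have h7 : S (δ • (t - v)) = u - (u - S (δ • (t - v))) := by abel
      have h8 := norm_sub_le u (u - S (δ • (t - v)))
      rw [← h7] at h8
      linarith
    · have h7 : u = (u - S (δ • (t - v))) + S (δ • (t - v)) := by abel
      have h8 := norm_add_le (u - S (δ • (t - v))) (S (δ • (t - v)))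
      rw [← h7] at h8
      linarith
  have hptt : ∀ s : E m, ‖s‖ ≤ 1 → a ^ 2 * δ ^ 2 * (2 * (1 + ρ ^ 2) * inner ℝ s w -
      (2 * (ρ ^ 2 - 1) + 13 * ρ ^ 2 * η + 9 * ρ ^ 2 * ξ)) ≤
      inner ℝ (Q (H (z + δ • s)) - Q (H (z + δ • rf w s))) e := by
    intro s hs
    have hs' : ‖rf w s‖ ≤ 1 := by rw [rf_norm hw]; exact hs
    obtain ⟨A, hA⟩ : ∃ A, A = H (z + δ • s) := ⟨_, rfl⟩
    obtain ⟨A', hA'⟩ : ∃ A', A' = H (z + δ • rf w s) := ⟨_, rfl⟩
    obtain ⟨σ, hσ⟩ : ∃ σ : ℝ, σ = inner ℝ s w := ⟨_, rfl⟩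
    obtain ⟨x, hx⟩ : ∃ x : ℝ, x = ‖S s + w‖ := ⟨_, rfl⟩
    obtain ⟨y, hy⟩ : ∃ y : ℝ, y = ‖S s - w‖ := ⟨_, rfl⟩
    have hSs : ‖S s‖ ≤ 1 := (hS1 s).trans hs
    have hx0 : 0 ≤ x := hx ▸ norm_nonneg _
    have hy0 : 0 ≤ y := hy ▸ norm_nonneg _
    have hx3 : x ≤ 3 := by
      rw [hx]
      have := norm_add_le (S s) w
      linarith
    have hy3 : y ≤ 3 := by
      rw [hy]
      have := norm_sub_le (S s) w
      linarith
    have hx2 : x ^ 2 = ‖S s‖ ^ 2 + 1 + 2 * σ := by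
      rw [hx, @norm_add_sq_real, hw, hSi, ← hσ]
      ring
    have hy2 : y ^ 2 = ‖S s‖ ^ 2 + 1 - 2 * σ := by
      rw [hy, @norm_sub_sq_real, hw, hSi, ← hσ]
      ring
    have hrfS : S (rf w s) = rf w (S s) := by
      unfold rf
      rw [map_sub, map_smul, hSw, hSi]
    have hx' : ‖S (rf w s) - w‖ = x := by
      rw [hrfS, hx]
      have h1 : rf w (S s) - w = rf w (S s + w) := by
        have h2 := rf_smul_w hw 1
        rw [one_smul] at h2
        rw [rf_add, h2]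
        abel
      rw [h1, rf_norm hw]
    have hy' : ‖S (rf w s) + w‖ = y := by
      rw [hrfS, hy]
      have h1 : rf w (S s) + w = rf w (S s - w) := by
        have h2 := rf_smul_w hw (-1)
        rw [neg_one_smul, neg_neg] at h2
        rw [sub_eq_add_neg, rf_add, h2]
      rw [h1, rf_norm hw]
    have k1 := hcmp s (-w) hs hwm
    have k2 := hcmp (rf w s) w hs' hw.le
    have k3 := hcmp s w hs hw.le
    have k4 := hcmp (rf w s) (-w) hs' hwm
    rw [sub_neg_eq_add, map_add, hSw, ← hx] at k1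
    rw [map_sub, hSw, hx'] at k2
    rw [map_sub, hSw, ← hy] at k3
    rw [sub_neg_eq_add, map_add, hSw, hy'] at k4
    have q1 : a * (δ * x - η * δ) ≤ ‖A - F‖ := by
      rw [hA, hF]
      exact (mul_le_mul_of_nonneg_left k1.1 ha.le).trans (hlow _ _ (hball s hs) (hball _ hwm))
    have q2 : a * (δ * x - η * δ) ≤ ‖A' - C‖ := by
      rw [hA', hC]
      exact (mul_le_mul_of_nonneg_left k2.1 ha.le).trans (hlow _ _ (hball _ hs') (hball _ hw.le))
    have q3 : ‖A - C‖ ≤ ρ * (a * (δ * y + η * δ)) := by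
      rw [hA, hC]
      refine (hup _ _ (hball s hs) (hball _ hw.le)).trans ?_
      have := k3.2
      gcongr
    have q4 : ‖A' - F‖ ≤ ρ * (a * (δ * y + η * δ)) := by
      rw [hA', hF]
      refine (hup _ _ (hball _ hs') (hball _ hwm)).trans ?_
      have := k4.2
      gcongr
    have hq1 : ‖S s‖ ^ 2 ≤ 1 := by nlinarith [norm_nonneg (S s)]
    have h4 := four ha hδ hρ hη0 hη1 hx0 hy0 hx3 hy3 hq1 hx2 hy2 q1 q2 q3 q4
    rw [← he] at h4
    have h5 : (Q (H (z + δ • s)) - Q (H (z + δ • rf w s))) =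
        (A - A') + (Q (A - A') - (A - A')) := by
      rw [hA, hA', map_sub]
      abel
    rw [h5, inner_add_left]
    have h6 : ‖Q (A - A') - (A - A')‖ ≤ ξ * (3 * ρ * a * δ) := by
      rw [hA, hA']
      refine (hQ _ _ (hball s hs) (hball _ hs')).trans ?_
      exact mul_le_mul_of_nonneg_left (hbig s _ hs hs') hξ0
    have h7 : ‖e‖ ≤ 3 * ρ * a * δ := by
      rw [he, hC, hF]
      exact hbig w (-w) hw.le hwm
    have h8 : |(inner ℝ (Q (A - A') - (A - A')) e : ℝ)| ≤ ξ * (3 * ρ * a * δ) * (3 * ρ * a * δ) := by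
      refine (abs_real_inner_le_norm _ _).trans ?_
      exact mul_le_mul h6 h7 (norm_nonneg _) (by positivity)
    have h9 := (abs_le.1 h8).1
    rw [← hσ]
    have h10 : a ^ 2 * δ ^ 2 * (2 * (1 + ρ ^ 2) * σ -
        (2 * (ρ ^ 2 - 1) + 13 * ρ ^ 2 * η + 9 * ρ ^ 2 * ξ)) =
        a ^ 2 * δ ^ 2 * (2 * (1 + ρ ^ 2) * σ - (2 * (ρ ^ 2 - 1) + 13 * ρ ^ 2 * η)) -
          ξ * (3 * ρ * a * δ) * (3 * ρ * a * δ) := by ring
    rw [h10]
    linarith
  have hGc : Continuous fun p => Q (H p) := Q.continuous.comp hH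
  obtain ⟨c₀, hc₀⟩ : ∃ c₀ : ℝ, c₀ = 2 * (1 + ρ ^ 2) - (2 * (ρ ^ 2 - 1) + 13 * ρ ^ 2 * η +
    9 * ρ ^ 2 * ξ) * (Real.sqrt m / r₀) := ⟨_, rfl⟩
  have hc₀p : 0 < c₀ := by rw [hc₀]; linarith
  have hρ2 : 0 ≤ ρ ^ 2 - 1 := by nlinarith
  have key := main_abs K hr0 (G := fun p => Q (H p)) (z := z) (w := w) (e := e) (h := δ)
    (M := a ^ 2 * δ ^ 2) (c₁ := 2 * (1 + ρ ^ 2))
    (B := 2 * (ρ ^ 2 - 1) + 13 * ρ ^ 2 * η + 9 * ρ ^ 2 * ξ) hδ hw hGc.continuousOn (by positivity)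
    (by positivity) hptt
  rw [← hc₀] at key
  have hpos : 0 < a ^ 2 * δ ^ 2 / 2 * c₀ := by positivity
  intro h0
  have hint : Integrable fun s => (K.g s * inner ℝ s w) • H (z + δ • s) := by
    apply Continuous.integrable_of_hasCompactSupport
    · have h1 := K.gcont
      fun_prop
    · apply HasCompactSupport.of_support_subset_isCompact (isCompact_closedBall (0 : E m) 1)
      intro s hs
      rw [mem_closedBall_zero_iff]
      by_contra h
      apply hs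
      show (K.g s * inner ℝ s w) • H (z + δ • s) = 0
      rw [K.gzero s (not_le.1 h), zero_mul, zero_smul]
  have h1 : inner ℝ (Q (D w)) e = δ⁻¹ * ∫ s, K.g s * (inner ℝ s w * inner ℝ (Q (H (z + δ • s))) e) := by
    obtain ⟨L, hL⟩ : ∃ L : E d →L[ℝ] ℝ, L = (innerSL ℝ e).comp Q := ⟨_, rfl⟩
    have hLe : ∀ v, L v = inner ℝ (Q v) e := fun v => by
      rw [hL, ContinuousLinearMap.comp_apply, innerSL_apply_apply, real_inner_comm]
    rw [← hLe, hD, map_smul, ← L.integral_comp_comm hint, smul_eq_mul]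
    congr 1
    congr 1
    funext s
    rw [map_smul, hLe, smul_eq_mul, mul_assoc]
  rw [h0, inner_zero_left] at h1
  have h2 : 0 < δ⁻¹ * ∫ s, K.g s * (inner ℝ s w * inner ℝ (Q (H (z + δ • s))) e) := by
    have := hpos.trans_le key
    positivity
  linarith

end Pool.Agent.U987.BI
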