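import Pool.Agent.U987.BI.Est
import Pool.Agent.U211.BL.Asm
import Pool.Agent.Y522.Sch

/-!
# Compactly supported bi-Lipschitz diffeomorphisms of `ℝⁿ`
-/

set_option autoImplicit false
set_option linter.unusedSectionVars false

open Set Filter Topology Metric Function MeasureTheory
open scoped Manifold ContDiff

noncomputable section

namespace Pool.Agent.U987.BI

open Pool.Agent.Y522 Pool.Agent.U211.BLV
open Pool.Agent.U211.BL hiding Mol LL LL_apply moll_congr moll_const moll_cont moll_conv moll_pos moll_joint moll_null mollS moll_hasFDerivAt polar main_est point_est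

variable {n : ℕ}

/-- a local diffeomorphism of `ℝⁿ` which is the identity near infinity is bijective -/
theorem bij_of_ld {h : E n → E n} (hld : ∀ x, LD n h x) {R : ℝ} (hR : ∀ x, R ≤ ‖x‖ → h x = x) :
    Bijective h := by
  have hc : Continuous h := (contDiff_of_LD hld).continuous
  rcases Nat.eq_zero_or_pos n with hn | hn
  · subst hn
    exact ⟨fun a b _ => Subsingleton.elim _ _, fun y => ⟨y, Subsingleton.elim _ _⟩⟩
  have hprop : ∀ x B, ‖h x‖ ≤ B → ‖x‖ ≤ max R B := by
    intro x B hx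
    rcases le_total R ‖x‖ with h1 | h1
    · rw [hR x h1] at hx
      exact hx.trans (le_max_right _ _)
    · exact h1.trans (le_max_left _ _)
  obtain ⟨M, hM⟩ := (isCompact_closedBall (0 : E n) R).exists_bound_of_continuousOn hc.continuousOn
  obtain ⟨D, hD⟩ : ∃ D : Set (E n), D = {x | ∃ x', x' ≠ x ∧ h x' = h x} := ⟨_, rfl⟩
  have hopen : IsOpen D := by
    rw [isOpen_iff_mem_nhds, hD]
    rintro x ⟨x', hne, heq⟩
    obtain ⟨U', U, hU'o, hUo, hxU', hxU, hdis⟩ := t2_separation hne
    have h1 := (hld x').image_mem_nhds (hU'o.mem_nhds hxU')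
    rw [heq] at h1
    filter_upwards [hc.continuousAt.eventually h1, hUo.mem_nhds hxU] with y hy hyU
    obtain ⟨y', hy'U, hy'⟩ := hy
    refine ⟨y', ?_, hy'⟩
    rintro rfl
    exact disjoint_left.1 hdis hy'U hyU
  have hclosed : IsClosed D := by
    rw [← isOpen_compl_iff, isOpen_iff_mem_nhds]
    intro x hx
    rw [hD] at hx
    have hx' : ∀ x', h x' = h x → x' = x := by
      intro x' hx'
      by_contra hne
      exact hx ⟨x', hne, hx'⟩
    obtain ⟨V, hV, hVi⟩ := (hld x).eventually_injOn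
    obtain ⟨C, hC⟩ : ∃ C : Set (E n), C = closedBall 0 (max R (‖h x‖ + 1)) \ interior V := ⟨_, rfl⟩
    have hCc : IsCompact C := by
      rw [hC]
      exact (isCompact_closedBall _ _).diff isOpen_interior
    have hCi : IsClosed (h '' C) := (hCc.image hc).isClosed
    have hxC : h x ∉ h '' C := by
      rintro ⟨c, hc1, hc2⟩
      have := hx' c hc2
      rw [this, hC] at hc1
      exact hc1.2 (mem_interior_iff_mem_nhds.2 hV)
    have e1 : ∀ᶠ y in 𝓝 x, h y ∉ h '' C := hc.continuousAt.eventually (hCi.isOpen_compl.mem_nhds hxC)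
    have e2 : ∀ᶠ y in 𝓝 x, ‖h y‖ < ‖h x‖ + 1 :=
      hc.norm.continuousAt.eventually_lt_const (by linarith)
    filter_upwards [e1, e2, hV] with y h1 h2 h3
    rw [hD]
    rintro ⟨y', hne, heq⟩
    apply hne
    have h4 : ‖y'‖ ≤ max R (‖h x‖ + 1) := hprop _ _ (by rw [heq]; exact h2.le)
    have h5 : y' ∈ interior V := by
      by_contra h6
      apply h1
      rw [← heq]
      refine ⟨y', ?_, rfl⟩
      rw [hC]
      exact ⟨by rwa [mem_closedBall_zero_iff], h6⟩
    exact hVi (interior_subset h5) h3 heq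
  have hDe : D = ∅ := by
    rcases isClopen_iff.1 ⟨hclosed, hopen⟩ with h1 | h1
    · exact h1
    · exfalso
      have hnt : Nontrivial (E n) := by
        have : Nonempty (Fin n) := ⟨⟨0, hn⟩⟩
        infer_instance
      obtain ⟨x, hx⟩ := NormedSpace.exists_lt_norm ℝ (E n) (max R M)
      have hxD : x ∈ D := h1 ▸ mem_univ x
      rw [hD] at hxD
      obtain ⟨x', hne, heq⟩ := hxD
      have h2 : h x = x := hR x ((le_max_left _ _).trans hx.le)
      rw [h2] at heq
      rcases le_total R ‖x'‖ with h3 | h3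
      · rw [hR x' h3] at heq
        exact hne heq
      · have h4 := hM x' (by rwa [mem_closedBall_zero_iff])
        rw [heq] at h4
        exact absurd ((le_max_right R M).trans_lt hx) (not_lt.2 h4)
  constructor
  · intro a b hab
    by_contra hne
    have : b ∈ D := by
      rw [hD]
      exact ⟨a, hne, hab⟩
    rw [hDe] at this
    exact this
  · have h1 : IsOpen (range h) := by
      rw [← image_univ]
      exact isOpen_image_of_LD isOpen_univ fun x _ => hld x
    have h2 : IsClosed (range h) := by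
      have h3 : range h = h '' closedBall 0 R ∪ {y | R ≤ ‖y‖} := by
        apply Subset.antisymm
        · rintro _ ⟨x, rfl⟩
          rcases le_total R ‖x‖ with h4 | h4
          · right
            show R ≤ ‖h x‖
            rw [hR x h4]
            exact h4
          · left
            exact ⟨x, by rwa [mem_closedBall_zero_iff], rfl⟩
        · rintro y (⟨x, -, rfl⟩ | hy)
          · exact mem_range_self x
          · exact ⟨y, hR y hy⟩
      rw [h3]
      exact ((isCompact_closedBall (0 : E n) R).image hc).isClosed.union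
        (isClosed_le continuous_const continuous_norm)
    have h3 : range h = univ := IsClopen.eq_univ ⟨h2, h1⟩ ⟨h 0, mem_range_self 0⟩
    exact range_eq_univ.1 h3

variable {r₀ : ℝ} (K : Ker n r₀)

theorem int_smul_id : ∫ s, K.k s • s = 0 := by
  have h1 : ∫ s, K.k s • s = -∫ s, K.k s • s := by
    rw [← integral_neg, ← integral_neg_eq_self]
    congr 1
    funext s
    rw [K.neg, smul_neg]
  obtain ⟨I, hI⟩ : ∃ I, I = ∫ s, K.k s • s := ⟨_, rfl⟩
  rw [← hI] at h1 ⊢
  have h2 : (2 : ℝ) • I = 0 := by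
    rw [two_smul]
    nth_rewrite 1 [h1]
    exact neg_add_cancel I
  exact (smul_eq_zero.1 h2).resolve_left (by norm_num)

/-- mollification of the sum of the identity and a function -/
theorem mol_add {ψ : E n → E n} (hψ : Continuous ψ) (x : E n) (r : ℝ) :
    ∫ s, K.k s • ((x + r • s) + ψ (x + r • s)) = x + ∫ s, K.k s • ψ (x + r • s) := by
  have i1 : Integrable fun s => K.k s • s := by
    apply Continuous.integrable_of_hasCompactSupport
    · exact K.cont.smul continuous_id
    · exact (compactSupport_of fun s hs => K.zero s hs.le).smul_right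
  have i2 : Integrable fun s => K.k s • ψ (x + r • s) := by
    apply Continuous.integrable_of_hasCompactSupport
    · exact K.cont.smul (by fun_prop)
    · exact (compactSupport_of fun s hs => K.zero s hs.le).smul_right
  have i3 : Integrable fun s => K.k s • x := K.integrable.smul_const x
  have h1 : ∀ s, K.k s • ((x + r • s) + ψ (x + r • s)) =
      (K.k s • x + r • (K.k s • s)) + K.k s • ψ (x + r • s) := by
    intro s
    rw [smul_add, smul_add, smul_comm r]
  simp only [h1]
  have i4 : Integrable fun s => r • (K.k s • s) := i1.smul r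
  have i5 : Integrable fun s => K.k s • x + r • (K.k s • s) := i3.add i4
  rw [integral_add i5 i2, integral_add i3 i4, integral_smul_const,
    integral_smul, int_smul_id, K.int, one_smul, smul_zero, add_zero]

/-- **Compactly supported diffeomorphisms of `ℝⁿ` of small distortion** are isotopic to the
identity. -/
theorem isotopy_euc {a ρ : ℝ} (ha : 0 < a) (hρ : 1 ≤ ρ) (hc : (ρ ^ 2 - 1) * Real.sqrt n < 1 + ρ ^ 2)
    {φ : E n → E n} (hld : ∀ x, LD n φ x) {R : ℝ} (hR : ∀ x, R ≤ ‖x‖ → φ x = x)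
    (hlow : ∀ p q, a * ‖p - q‖ ≤ ‖φ p - φ q‖) (hup : ∀ p q, ‖φ p - φ q‖ ≤ ρ * (a * ‖p - q‖)) :
    ∃ F : ℝ × E n → E n, ContDiff ℝ ∞ F ∧
      (∀ t, Bijective (fun x => F (t, x)) ∧ ∀ x, LD n (fun x => F (t, x)) x) ∧
      (∀ x, F (0, x) = x) ∧ (∀ x, F (1, x) = φ x) ∧
      ∃ R', ∀ t x, R' ≤ ‖x‖ → F (t, x) = x := by
  have hφ : ContDiff ℝ ∞ φ := contDiff_of_LD hld
  obtain ⟨θ, hθ0, hθ1, hcθ⟩ : ∃ θ : ℝ, 0 < θ ∧ θ < 1 ∧
      (ρ ^ 2 - 1) * (Real.sqrt n / θ) < 1 + ρ ^ 2 := by
    have hcont : ContinuousAt (fun t : ℝ => (ρ ^ 2 - 1) * (Real.sqrt n / (1 - t))) 0 := by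
      apply ContinuousAt.mul continuousAt_const
      apply ContinuousAt.div continuousAt_const (by fun_prop)
      norm_num
    have h1 : ∀ᶠ t in 𝓝 (0 : ℝ), (ρ ^ 2 - 1) * (Real.sqrt n / (1 - t)) < 1 + ρ ^ 2 := by
      apply hcont.eventually_lt_const
      show (ρ ^ 2 - 1) * (Real.sqrt n / (1 - 0)) < 1 + ρ ^ 2
      simpa using hc
    have h2 : ∀ᶠ t in 𝓝[>] (0 : ℝ), t < 1 :=
      (gt_mem_nhds one_pos).filter_mono nhdsWithin_le_nhds
    obtain ⟨t, ⟨h2, h3⟩, h4⟩ := ((h1.filter_mono nhdsWithin_le_nhds).and h2).and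
      self_mem_nhdsWithin |>.exists
    have h5 : 0 < t := h4
    exact ⟨1 - t, by linarith, by linarith, h2⟩
  obtain ⟨K⟩ := exists_ker n hθ0 hθ1
  -- the difference of the map and the identity
  obtain ⟨ψ, hψ⟩ : ∃ ψ : E n → E n, ψ = fun x => φ x - x := ⟨_, rfl⟩
  have hψe : ∀ x, φ x = x + ψ x := fun x => by rw [hψ]; simp
  have hψs : ContDiff ℝ ∞ ψ := by
    rw [hψ]
    exact hφ.sub contDiff_id
  obtain ⟨M, hM⟩ := (isCompact_closedBall (0 : E n) R).exists_bound_of_continuousOn
    hψs.continuous.continuousOn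
  have hMψ : ∀ x, ‖ψ x‖ ≤ |M| := by
    intro x
    rcases le_total R ‖x‖ with h1 | h1
    · rw [hψ]
      simp only
      rw [hR x h1, sub_self, norm_zero]
      exact abs_nonneg M
    · exact (hM x (by rwa [mem_closedBall_zero_iff])).trans (le_abs_self M)
  obtain ⟨Φ, hΦ⟩ : ∃ Φ : E n × ℝ → E n, Φ = fun q => ∫ s, K.k s • φ (q.1 + q.2 • s) := ⟨_, rfl⟩
  have hΦs : ContDiff ℝ ∞ Φ := by
    rw [hΦ]
    exact Pool.Agent.U211.BLV.moll_joint K hφ
  have hΦe : ∀ x r, Φ (x, r) = ∫ s, K.k s • φ (x + r • s) := fun x r => by rw [hΦ]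
  have hΦ0 : ∀ x, Φ (x, 0) = φ x := by
    intro x
    rw [hΦe]
    simp only [zero_smul, add_zero]
    rw [integral_smul_const, K.int, one_smul]
  have hΦψ : ∀ x r, Φ (x, r) = x + ∫ s, K.k s • ψ (x + r • s) := by
    intro x r
    rw [hΦe, ← mol_add K hψs.continuous]
    simp only [← hψe]
  have hΦid : ∀ x r, 0 ≤ r → R + r ≤ ‖x‖ → Φ (x, r) = x := by
    intro x r hr hx
    rw [hΦψ]
    have : ∀ s, K.k s • ψ (x + r • s) = 0 := by
      intro s
      by_cases hs : K.k s = 0
      · rw [hs, zero_smul]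
      · have h1 : R ≤ ‖x + r • s‖ := by
          have h2 := norm_sub_le (x + r • s) (r • s)
          rw [add_sub_cancel_right, norm_smul, Real.norm_of_nonneg hr] at h2
          have h3 := (K.lt hs).le
          nlinarith
        rw [hψ]
        simp only
        rw [hR _ h1, sub_self, smul_zero]
    simp only [this, integral_zero, add_zero]
  -- the derivative at positive scales
  have hder : ∀ r, 0 < r → ∀ x, ∃ D : E n →L[ℝ] E n, HasFDerivAt (fun x => Φ (x, r)) D x ∧
      ∀ w, ‖w‖ = 1 → D w ≠ 0 := by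
    intro r hr x
    obtain ⟨D, hD, hDf⟩ := Pool.Agent.U211.BLV.moll_hasFDerivAt K
      (hφ.continuous.locallyIntegrable (μ := (volume : Measure (E n)))) hr x
    refine ⟨D, ?_, fun w hw => ?_⟩
    · have : (fun x => Φ (x, r)) = fun y => ∫ s, K.k s • φ (y + r • s) := by
        funext y
        rw [hΦe]
      rw [this]
      exact hD
    · exact der_ne K hθ0 (H := φ) (P := fun p => p) (z := x) (w := w) (δ := r) (a := a) (ρ := ρ)
        (η := 0) (ξ := 0) (S := ContinuousLinearMap.id ℝ (E n)) (Q := ContinuousLinearMap.id ℝ (E n))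
        hφ.continuous hr ha hρ le_rfl zero_le_one le_rfl hw (fun v => le_rfl) rfl (fun v => rfl)
        (fun p q _ _ => by simp) (fun p q _ _ => hlow p q) (fun p q _ _ => hup p q)
        (fun p q _ _ => by simp) (by linarith) hDf
  have hder1 : ∀ r, 0 < r → ∀ x, ∃ D : E n →L[ℝ] E n,
      HasFDerivAt (fun x => ∫ s, K.k s • ψ (x + r • s)) D x ∧
      ∀ w, ‖w‖ = 1 → ‖D w‖ ≤ r⁻¹ * (|M| * (Real.sqrt n / θ)) := by
    intro r hr x
    obtain ⟨D, hD, hDf⟩ := Pool.Agent.U211.BLV.moll_hasFDerivAt K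
      (hψs.continuous.locallyIntegrable (μ := (volume : Measure (E n)))) hr x
    refine ⟨D, hD, fun w hw => ?_⟩
    rw [hDf, norm_smul, norm_inv, Real.norm_of_nonneg hr.le]
    apply mul_le_mul_of_nonneg_left _ (by positivity)
    have h1 : Integrable fun s => K.g s * |(inner ℝ s w : ℝ)| := K.g_mul_integrable (by fun_prop)
    calc ‖∫ s, (K.g s * inner ℝ s w) • ψ (x + r • s)‖ ≤
        ∫ s, |M| * (K.g s * |(inner ℝ s w : ℝ)|) := by
          apply norm_integral_le_of_norm_le (h1.const_mul _)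
          apply Eventually.of_forall
          intro s
          rw [norm_smul, norm_mul, Real.norm_of_nonneg (K.gnonneg s), Real.norm_eq_abs]
          have h2 := hMψ (x + r • s)
          have h3 : 0 ≤ K.g s * |(inner ℝ s w : ℝ)| := mul_nonneg (K.gnonneg s) (abs_nonneg _)
          calc K.g s * |(inner ℝ s w : ℝ)| * ‖ψ (x + r • s)‖ ≤
              K.g s * |(inner ℝ s w : ℝ)| * |M| := mul_le_mul_of_nonneg_left h2 h3
            _ = |M| * (K.g s * |(inner ℝ s w : ℝ)|) := by ring
      _ = |M| * ∫ s, K.g s * |(inner ℝ s w : ℝ)| := integral_const_mul _ _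
      _ ≤ |M| * (Real.sqrt n / θ) :=
          mul_le_mul_of_nonneg_left (K.int_abs_le hθ0 hw) (abs_nonneg _)
  -- a large scale
  obtain ⟨r₁, hr₁0, hr₁⟩ : ∃ r₁ : ℝ, 0 < r₁ ∧ r₁⁻¹ * (|M| * (Real.sqrt n / θ)) < 1 := by
    obtain ⟨C, hC⟩ : ∃ C, C = |M| * (Real.sqrt n / θ) := ⟨_, rfl⟩
    have hC0 : 0 ≤ C := by rw [hC]; positivity
    rw [← hC]
    refine ⟨C + 1, by linarith, ?_⟩
    rw [← div_eq_inv_mul, div_lt_one (by linarith)]
    linarith
  -- the path
  obtain ⟨σ, hσ⟩ : ∃ σ : ℝ → ℝ, σ = Real.smoothTransition := ⟨_, rfl⟩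
  have hσs : ContDiff ℝ ∞ σ := by rw [hσ]; exact Real.smoothTransition.contDiff
  have hσ0 : ∀ t, 0 ≤ σ t := fun t => by rw [hσ]; exact Real.smoothTransition.nonneg t
  have hσ1 : ∀ t, σ t ≤ 1 := fun t => by rw [hσ]; exact Real.smoothTransition.le_one t
  have hσz : ∀ t, t ≤ 0 → σ t = 0 := fun t ht => by
    rw [hσ]; exact Real.smoothTransition.zero_of_nonpos ht
  have hσo : ∀ t, 1 ≤ t → σ t = 1 := fun t ht => by
    rw [hσ]; exact Real.smoothTransition.one_of_one_le ht
  obtain ⟨lam, hlam⟩ : ∃ lam : ℝ → ℝ, lam = fun t => σ (2 * t) := ⟨_, rfl⟩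
  obtain ⟨rr, hrr⟩ : ∃ rr : ℝ → ℝ, rr = fun t => r₁ * (1 - σ (2 * t - 1)) := ⟨_, rfl⟩
  have hlame : ∀ t, lam t = σ (2 * t) := fun t => by rw [hlam]
  have hrre : ∀ t, rr t = r₁ * (1 - σ (2 * t - 1)) := fun t => by rw [hrr]
  have hlams : ContDiff ℝ ∞ lam := by
    rw [hlam]
    exact hσs.comp (by fun_prop)
  have hrrs : ContDiff ℝ ∞ rr := by
    rw [hrr]
    exact contDiff_const.mul (contDiff_const.sub (hσs.comp (by fun_prop)))
  have hrr0 : ∀ t, 0 ≤ rr t := fun t => by
    rw [hrre]
    exact mul_nonneg hr₁0.le (by linarith [hσ1 (2 * t - 1)])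
  have hrr1 : ∀ t, rr t ≤ r₁ := fun t => by
    rw [hrre]
    nlinarith [hσ0 (2 * t - 1)]
  obtain ⟨F, hF⟩ : ∃ F : ℝ × E n → E n, F = fun q => q.2 + lam q.1 • (Φ (q.2, rr q.1) - q.2) :=
    ⟨_, rfl⟩
  have hFe : ∀ t x, F (t, x) = x + lam t • (Φ (x, rr t) - x) := fun t x => by rw [hF]
  have hFid : ∀ t x, R + r₁ ≤ ‖x‖ → F (t, x) = x := by
    intro t x hx
    rw [hFe, hΦid x _ (hrr0 t) (by linarith [hrr1 t]), sub_self, smul_zero, add_zero]
  have hFs : ContDiff ℝ ∞ F := by
    rw [hF]
    exact contDiff_snd.add ((hlams.comp contDiff_fst).smul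
      ((hΦs.comp (contDiff_snd.prodMk (hrrs.comp contDiff_fst))).sub contDiff_snd))
  have hFld : ∀ t x, LD n (fun x => F (t, x)) x := by
    intro t x
    have hsm : ∀ᶠ y in 𝓝 x, ContDiffAt ℝ ∞ (fun x => F (t, x)) y := by
      have : ContDiff ℝ ∞ fun x => F (t, x) := hFs.comp (contDiff_const.prodMk contDiff_id)
      exact Eventually.of_forall fun y => this.contDiffAt
    rcases le_total t (1 / 2) with ht | ht
    · have h1 : rr t = r₁ := by
        rw [hrre, hσz _ (by linarith), sub_zero, mul_one]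
      obtain ⟨D, hD, hDn⟩ := hder1 r₁ hr₁0 x
      have h2 : (fun x => F (t, x)) = fun x => x + lam t • ∫ s, K.k s • ψ (x + r₁ • s) := by
        funext y
        rw [hFe, h1, hΦψ, add_sub_cancel_left]
      have h3 : HasFDerivAt (fun x => F (t, x)) (ContinuousLinearMap.id ℝ (E n) + lam t • D) x := by
        rw [h2]
        exact (hasFDerivAt_id x).add (hD.const_smul (lam t))
      apply LD_of_pos hsm
      intro u hu h4
      rw [h3.fderiv] at h4
      have h5 : u = -(lam t • D u) := by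
        rw [_root_.add_apply, _root_.smul_apply, ContinuousLinearMap.id_apply] at h4
        exact eq_neg_of_add_eq_zero_left h4
      have h6 := hDn u hu
      have h7 : ‖u‖ < 1 := by
        rw [h5, norm_neg, norm_smul, hlame, Real.norm_of_nonneg (hσ0 _)]
        have h8 := hσ1 (2 * t)
        have h9 := hσ0 (2 * t)
        nlinarith [norm_nonneg (D u)]
      linarith
    · have h1 : lam t = 1 := by
        rw [hlame, hσo _ (by linarith)]
      have h2 : (fun x => F (t, x)) = fun x => Φ (x, rr t) := by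
        funext y
        rw [hFe, h1, one_smul]
        abel
      rcases (hrr0 t).lt_or_eq with h3 | h3
      · obtain ⟨D, hD, hDn⟩ := hder (rr t) h3 x
        apply LD_of_pos hsm
        rw [h2, hD.fderiv]
        exact hDn
      · rw [h2, ← h3]
        have h4 : (fun x => Φ (x, 0)) = φ := funext hΦ0
        rw [h4]
        exact hld x
  refine ⟨F, hFs, fun t => ⟨bij_of_ld (hFld t) (hFid t), hFld t⟩, fun x => ?_, fun x => ?_,
    R + r₁, hFid⟩
  · rw [hFe, hlame, hσz _ (by norm_num), zero_smul, add_zero]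
  · rw [hFe, hlame, hrre, hσo _ (by norm_num), hσo _ (by norm_num), one_smul, sub_self, mul_zero,
      hΦ0]
    abel

end Pool.Agent.U987.BI
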