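import Pool.Agent.U987.BI.Est
import Pool.Agent.U498.AI.Fam

/-!
# The smoothed maps of a path of bi-Lipschitz homeomorphisms
-/

set_option autoImplicit false
set_option linter.unusedSectionVars false

open Set Filter Topology Metric Function MeasureTheory
open scoped Manifold ContDiff

noncomputable section

namespace Pool.Agent.U987.BI

open Pool.Agent.Y522 Pool.Agent.U211.BLV Pool.Agent.U498.AC Pool.Agent.U498.AI
open Pool.Agent.U211.BL hiding Mol LL LL_apply moll_congr moll_const moll_cont moll_conv moll_pos moll_joint moll_null mollS k_smul_integrable moll_hasFDerivAt polar main_est point_est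

variable {n m d : ℕ} {X Y : Type} [TopologicalSpace X] [ChartedSpace (E n) X] [T2Space X]
  [IsManifold (𝓡 n) ∞ X] [TopologicalSpace Y] [ChartedSpace (E n) Y] [IsManifold (𝓡 n) ∞ Y]

/-- the derivative of the nearest point retraction is symmetric -/
theorem PP_orth {e : Y → E d} {π : E d → Y} (hT : Tub n e π)
    (hn : ∀ p y, ‖p - e (π p)‖ ≤ ‖p - e y‖) (y : Y) {w : E d}
    (hw : fderiv ℝ (PP e π) (e y) w = w) (v : E d) :
    (inner ℝ (fderiv ℝ (PP e π) (e y) v) w : ℝ) = inner ℝ v w := by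
  obtain ⟨D, hD⟩ : ∃ D, D = fderiv ℝ (PP e π) (e y) := ⟨_, rfl⟩
  have h1 := PP_sub_id hT hn y
  have h2 := PP_idem hT y
  rw [← hD] at h1 h2 hw ⊢
  obtain ⟨u, hu⟩ : ∃ u, u = v - D v := ⟨_, rfl⟩
  have hDu : D u = 0 := by rw [hu, map_sub, h2, sub_self]
  have key : ∀ t : ℝ, ‖u‖ ^ 2 ≤ ‖u + t • w‖ ^ 2 := by
    intro t
    apply pow_le_pow_left₀ (norm_nonneg _)
    have h3 : (D - ContinuousLinearMap.id ℝ (E d)) (u + t • w) = -u := by
      simp [hDu, hw]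
    have h4 := (D - ContinuousLinearMap.id ℝ (E d)).le_of_opNorm_le h1 (u + t • w)
    rw [h3, norm_neg, one_mul] at h4
    exact h4
  have h0 : (inner ℝ u w : ℝ) = 0 := by
    by_cases hx0 : w = 0
    · rw [hx0, inner_zero_right]
    · have hxn : 0 < ‖w‖ ^ 2 := by positivity
      have h3 := key (-(inner ℝ u w) / ‖w‖ ^ 2)
      rw [norm_add_sq_real, inner_smul_right, norm_smul, mul_pow, Real.norm_eq_abs, sq_abs] at h3
      have h4 : 2 * (-(inner ℝ u w) / ‖w‖ ^ 2 * inner ℝ u w) +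
          (-(inner ℝ u w) / ‖w‖ ^ 2) ^ 2 * ‖w‖ ^ 2 = -((inner ℝ u w) ^ 2 / ‖w‖ ^ 2) := by
        field_simp
        ring
      have h5 : (inner ℝ u w : ℝ) ^ 2 / ‖w‖ ^ 2 ≤ 0 := by linarith
      have h6 : (inner ℝ u w : ℝ) ^ 2 ≤ 0 := by
        rw [div_le_iff₀ hxn, zero_mul] at h5
        exact h5
      exact pow_eq_zero_iff (by norm_num : (2 : ℕ) ≠ 0) |>.1 (le_antisymm h6 (sq_nonneg _))
  rw [hu, inner_sub_left] at h0
  linarith

/-- the path is bi-Lipschitz near `(t₀, x)`, with a constant `ρ` and a scaling factor which may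
depend on the time -/
def BLat {m d : ℕ} {X : Type} [TopologicalSpace X] (ι : X → E m) (ρ : ℝ) (F : ℝ → X → E d)
    (t₀ : ℝ) (x : X) : Prop :=
  ∃ U ∈ 𝓝 x, ∃ s > 0, ∀ t, |t - t₀| ≤ s → ∃ a > 0, ∀ p ∈ U, ∀ q ∈ U,
    a * ‖ι p - ι q‖ ≤ ‖F t p - F t q‖ ∧ ‖F t p - F t q‖ ≤ ρ * (a * ‖ι p - ι q‖)

variable {r₀ : ℝ} (K : Ker m r₀)

theorem bl_pt [CompactSpace X] [CompactSpace Y] (hr : 0 < r₀) {ι : X → E m} {πM : E m → X}
    (hTM : Tub n ι πM) (hnM : ∀ p y, ‖p - ι (πM p)‖ ≤ ‖p - ι y‖) (hι1 : ∀ x, ‖ι x‖ ≤ 1)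
    {e : Y → E d} {π : E d → Y} (hT : Tub n e π) (hn : ∀ p y, ‖p - e (π p)‖ ≤ ‖p - e y‖)
    {f : ℝ × X → Y} {H : ℝ × E m → E d} (hH : Continuous H) {ρ' : ℝ} (hρ' : 0 < ρ')
    (hHn : ∀ t x p, ‖p - ι x‖ ≤ ρ' → H (t, p) = e (f (t, πM p))) {χ : E m → ℝ} (hχ : Cut χ)
    (hχ1 : ∀ x, ∀ᶠ p in 𝓝 (ι x), χ p = 1) {ρ : ℝ} (hρ : 1 ≤ ρ)
    (hc : (ρ ^ 2 - 1) * (Real.sqrt m / r₀) < 1 + ρ ^ 2) {t₀ : ℝ} {x₀ : X}
    (hx : BLat ι ρ (fun t x => e (f (t, x))) t₀ x₀) :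
    ∃ V ∈ 𝓝 x₀, ∃ s > 0, ∀ δ, 0 < δ → δ ≤ s → ∀ t, |t - t₀| ≤ s → ∀ x ∈ V,
      ImmAt ι πM e π (Mol K (fun p => H (t, p)) (fun z => δ * χ z)) x := by
  obtain ⟨U, hU, s₁, hs₁, hbl⟩ := hx
  obtain ⟨q, hq⟩ : ∃ q, q = Real.sqrt m / r₀ := ⟨_, rfl⟩
  have hq0 : 0 ≤ q := by rw [hq]; positivity
  have hρ2 : 0 ≤ ρ ^ 2 - 1 := by nlinarith
  -- the small numbers
  obtain ⟨η, ⟨⟨n1, n2⟩, hη⟩⟩ := (((small (22 * ρ ^ 2 * q)
    (D := 2 * (1 + ρ ^ 2) - 2 * (ρ ^ 2 - 1) * q) (by rw [← hq] at hc; linarith)).and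
    (small 1 one_pos)).and self_mem_nhdsWithin).exists
  have hη0 : 0 < η := hη
  rw [mul_one] at n2
  have hcond : (2 * (ρ ^ 2 - 1) + 13 * ρ ^ 2 * η + 9 * ρ ^ 2 * η) * (Real.sqrt m / r₀) <
      2 * (1 + ρ ^ 2) := by
    rw [← hq]
    have : (2 * (ρ ^ 2 - 1) + 13 * ρ ^ 2 * η + 9 * ρ ^ 2 * η) * q =
        2 * (ρ ^ 2 - 1) * q + η * (22 * ρ ^ 2 * q) := by ring
    rw [this]
    linarith
  obtain ⟨τ₁, hτ₁0, hτ₁⟩ := PP_unif hTM (ξ := η / 2) (by positivity)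
  obtain ⟨τ₂, hτ₂0, hτ₂⟩ := PP_unif hT (ξ := η / 2) (by positivity)
  -- continuity
  obtain ⟨s₂, hs₂, hb⟩ := Metric.continuousAt_iff.1 (hH.continuousAt (x := (t₀, ι x₀))) (τ₂ / 4)
    (by positivity)
  have hb' : ∀ (t : ℝ) (p : E m), |t - t₀| < s₂ → ‖p - ι x₀‖ < s₂ →
      ‖H (t, p) - H (t₀, ι x₀)‖ < τ₂ / 4 := by
    intro t p ht hp
    have := hb (x := (t, p)) (by
      rw [Prod.dist_eq, Real.dist_eq, dist_eq_norm]
      exact max_lt ht hp)
    rwa [dist_eq_norm] at this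
  have hπt : Tendsto πM (𝓝 (ι x₀)) (𝓝 x₀) := by
    have := (hTM.near x₀).self_of_nhds.continuousAt.tendsto
    rwa [hTM.retr] at this
  obtain ⟨s₃, hs₃, hUb⟩ := Metric.eventually_nhds_iff_ball.1 (hπt.eventually hU)
  have hιc : Continuous ι := hTM.smooth.continuous
  obtain ⟨s, hs⟩ : ∃ s, s = min (min (min s₁ (s₂ / 2)) (min (s₃ / 2) (ρ' / 2)))
    (min τ₁ (1 / 4)) := ⟨_, rfl⟩
  have hs0 : 0 < s := by rw [hs]; positivity
  have g1 : s ≤ s₁ := by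
    rw [hs]
    exact (min_le_left _ _).trans ((min_le_left _ _).trans (min_le_left _ _))
  have g2 : s ≤ s₂ / 2 := by
    rw [hs]
    exact (min_le_left _ _).trans ((min_le_left _ _).trans (min_le_right _ _))
  have g3 : s ≤ s₃ / 2 := by
    rw [hs]
    exact (min_le_left _ _).trans ((min_le_right _ _).trans (min_le_left _ _))
  have g4 : s ≤ ρ' / 2 := by
    rw [hs]
    exact (min_le_left _ _).trans ((min_le_right _ _).trans (min_le_right _ _))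
  have g5 : s ≤ τ₁ := by
    rw [hs]
    exact (min_le_right _ _).trans (min_le_left _ _)
  have g6 : s ≤ 1 / 4 := by
    rw [hs]
    exact (min_le_right _ _).trans (min_le_right _ _)
  refine ⟨{x | ‖ι x - ι x₀‖ < s}, ?_, s, hs0, fun δ hδ hδs t ht x hx => ?_⟩
  · have h1 : Continuous fun x => ‖ι x - ι x₀‖ := by fun_prop
    exact h1.continuousAt.eventually_lt_const (by
      show ‖ι x₀ - ι x₀‖ < s
      rw [sub_self, norm_zero]
      exact hs0)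
  have hx' : ‖ι x - ι x₀‖ < s := hx
  obtain ⟨z, hz⟩ : ∃ z, z = ι x := ⟨_, rfl⟩
  rw [← hz] at hx'
  obtain ⟨a, ha, hab⟩ := hbl t (ht.trans g1)
  obtain ⟨Ht, hHt⟩ : ∃ Ht : E m → E d, Ht = fun p => H (t, p) := ⟨_, rfl⟩
  have hHte : ∀ p, Ht p = H (t, p) := fun p => by rw [hHt]
  have hHtc : Continuous Ht := by
    rw [hHt]
    fun_prop
  rw [← hHt]
  have hnear : ∀ p, ‖p - z‖ ≤ δ → ‖p - ι x₀‖ < 2 * s := by
    intro p hp
    have h1 : p - ι x₀ = (p - z) + (z - ι x₀) := by abel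
    rw [h1]
    refine (norm_add_le _ _).trans_lt ?_
    linarith
  have hHe : ∀ p, ‖p - z‖ ≤ δ → Ht p = e (f (t, πM p)) := by
    intro p hp
    rw [hHte]
    apply hHn t x
    rw [← hz]
    linarith
  have hmem : ∀ p, ‖p - z‖ ≤ δ → πM p ∈ U := by
    intro p hp
    apply hUb
    rw [mem_ball, dist_eq_norm]
    have := hnear p hp
    linarith
  have hzz : ‖z - z‖ ≤ δ := by rw [sub_self, norm_zero]; exact hδ.le
  -- the values
  have hval : ∀ p, ‖p - z‖ ≤ δ → ‖Ht p - Ht z‖ ≤ τ₂ / 2 := by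
    intro p hp
    have h1 := hb' t p (by linarith) (by linarith [hnear p hp])
    have h2 := hb' t z (by linarith) (by linarith [hnear z hzz])
    rw [hHte, hHte]
    have h5 : H (t, p) - H (t, z) = (H (t, p) - H (t₀, ι x₀)) - (H (t, z) - H (t₀, ι x₀)) := by
      abel
    rw [h5]
    refine (norm_sub_le _ _).trans ?_
    linarith
  have hRad : Rad (fun z => δ * χ z) := hχ.rad hδ (by linarith)
  have hχz : χ z = 1 := by
    rw [hz]
    exact (hχ1 x).self_of_nhds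
  have hclose : ‖Mol K Ht (fun z => δ * χ z) z - Ht z‖ ≤ τ₂ / 2 := by
    apply mol_close' K hHtc.continuousOn hRad
    · rw [hz]
      exact (hι1 _).trans (by norm_num)
    · intro p hp
      simp only [hχz, mul_one] at hp
      exact hval p hp
  have hHz : Ht z = e (f (t, x)) := by
    rw [hHe z hzz, hz, hTM.retr]
  -- the derivative
  obtain ⟨D, hD, hDf⟩ := Pool.Agent.U211.BLV.moll_hasFDerivAt K
    (hHtc.locallyIntegrable (μ := (volume : Measure (E m)))) hδ z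
  have hev : Mol K Ht (fun z => δ * χ z) =ᶠ[𝓝 z] fun y => ∫ s, K.k s • Ht (y + δ • s) := by
    rw [hz]
    filter_upwards [hχ1 x] with p hp
    unfold Mol
    simp only [hp, mul_one]
  have hDM : HasFDerivAt (Mol K Ht (fun z => δ * χ z)) D z := hD.congr_of_eventuallyEq hev
  intro w hw
  rw [← hz] at ⊢
  rw [hDM.fderiv]
  have hSw : fderiv ℝ (PP ι πM) (ι x) w = w := hw.2
  refine der_ne K hr (P := PP ι πM) (z := z) (δ := δ) (a := a) (ρ := ρ) (η := η) (ξ := η)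
    (S := fderiv ℝ (PP ι πM) (ι x)) hHtc hδ ha hρ hη0.le n2.le hη0.le hw.1 (PP_le hTM hnM x) hSw
    (PP_orth hTM hnM x hSw) ?_ ?_ ?_ ?_ hcond hDf
  · intro p q hp hq
    have hbal : ∀ p, ‖p - z‖ ≤ δ → p ∈ closedBall (ι x) τ₁ := by
      intro p hp
      rw [mem_closedBall, dist_eq_norm, ← hz]
      linarith
    exact Convex.norm_image_sub_le_of_norm_hasFDerivWithin_le' (𝕜 := ℝ) (f := PP ι πM)
      (f' := fderiv ℝ (PP ι πM)) (φ := fderiv ℝ (PP ι πM) (ι x)) (s := closedBall (ι x) τ₁)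
      (x := q) (y := p) (C := η / 2)
      (fun z hz => by
        rw [mem_closedBall, dist_eq_norm] at hz
        exact ((PP_smooth hTM (hτ₁ _ z hz).1).differentiableAt (by simp)).hasFDerivAt.hasFDerivWithinAt)
      (fun z hz => by
        rw [mem_closedBall, dist_eq_norm] at hz
        exact (hτ₁ _ z hz).2) (convex_closedBall _ _) (hbal q hq) (hbal p hp)
  · intro p q hp hq
    rw [hHe p hp, hHe q hq]
    exact (hab _ (hmem p hp) _ (hmem q hq)).1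
  · intro p q hp hq
    rw [hHe p hp, hHe q hq]
    exact (hab _ (hmem p hp) _ (hmem q hq)).2
  · intro p q hp hq
    have hqc := QC_of hT (by positivity : 0 ≤ η / 2) hτ₂ (PP_sub_id hT hn) (le_refl τ₂)
      (fun x => f (t, x)) x
    have h1 : ‖Ht p - Ht z‖ ≤ τ₂ := (hval p hp).trans (by linarith)
    have h2 : ‖Ht q - Ht z‖ ≤ τ₂ := (hval q hq).trans (by linarith)
    rw [hHz, hHe p hp] at h1
    rw [hHz, hHe q hq] at h2
    have h3 := hqc.dif (πM p) (πM q) h1 h2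
    rw [← hHe p hp, ← hHe q hq] at h3
    rw [hHz] at hclose
    have h4 := (hτ₂ (f (t, x)) _ (hclose.trans (by linarith))).2
    obtain ⟨u, hu⟩ : ∃ u, u = Ht p - Ht q := ⟨_, rfl⟩
    rw [← hu] at h3 ⊢
    obtain ⟨Q, hQ⟩ : ∃ Q, Q = fderiv ℝ (PP e π) (Mol K Ht (fun z => δ * χ z) z) := ⟨_, rfl⟩
    obtain ⟨Q₀, hQ₀⟩ : ∃ Q₀, Q₀ = fderiv ℝ (PP e π) (e (f (t, x))) := ⟨_, rfl⟩
    rw [← hQ, ← hQ₀] at h4
    rw [← hQ₀] at h3
    rw [← hQ]
    have h5 : Q u - u = (Q - Q₀) u + (Q₀ - ContinuousLinearMap.id ℝ (E d)) u := by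
      simp
    rw [h5]
    refine (norm_add_le _ _).trans ?_
    have h6 := (Q - Q₀).le_of_opNorm_le h4 u
    linarith

end Pool.Agent.U987.BI
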