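import Pool.Agent.U987.BI.Loc
import Pool.Agent.U498.AI.Final

/-!
# Paths of locally bi-Lipschitz homeomorphisms
-/

set_option autoImplicit false
set_option linter.unusedSectionVars false

open Set Filter Topology Metric Function MeasureTheory
open scoped Manifold ContDiff

noncomputable section

namespace Pool.Agent.U987.BI

open Pool.Agent.Y522 Pool.Agent.U211.BLV Pool.Agent.U498.AC Pool.Agent.U498.AI
open Pool.Agent.U211.BL hiding Mol LL LL_apply moll_congr moll_const moll_cont moll_conv moll_pos moll_joint moll_null mollS k_smul_integrable moll_hasFDerivAt polar main_est point_est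

variable {n m d : ℕ} {X Y : Type} [TopologicalSpace X] [ChartedSpace (E n) X] [T2Space X]
  [IsManifold (𝓡 n) ∞ X] [TopologicalSpace Y] [ChartedSpace (E n) Y] [IsManifold (𝓡 n) ∞ Y]

/-- **Paths of homeomorphisms.** -/
theorem path_tub [CompactSpace X] [ConnectedSpace X] [CompactSpace Y] [T2Space Y]
    {ι : X → E m} {πM : E m → X} (hTM : Tub n ι πM)
    (hnM : ∀ p y, ‖p - ι (πM p)‖ ≤ ‖p - ι y‖) (hinj : Injective ι) (hι1 : ∀ x, ‖ι x‖ < 1)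
    {e : Y → E d} {π : E d → Y} (hT : Tub n e π) (hn : ∀ p y, ‖p - e (π p)‖ ≤ ‖p - e y‖)
    {f : ℝ × X → Y} (hf : Continuous f) (hfb : ∀ t, Bijective fun x => f (t, x))
    {ρ₁ : ℝ} (hρ₁ : 1 ≤ ρ₁) (hc : (ρ₁ ^ 2 - 1) * Real.sqrt m < 1 + ρ₁ ^ 2)
    (hloc : ∀ t₀ ∈ Icc (0 : ℝ) 1, ∀ x, BLat ι ρ₁ (fun t x => e (f (t, x))) t₀ x)
    (h0 : ∀ x, LD n (fun x => f (0, x)) x) (h1 : ∀ x, LD n (fun x => f (1, x)) x) {ε₀ : ℝ}
    (hε₀ : 0 < ε₀) :
    Iso n (fun φ : X → Y => Bijective φ ∧ (∀ x, LD n φ x) ∧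
        ∃ t ∈ Icc (0 : ℝ) 1, ∀ x, ‖e (φ x) - e (f (t, x))‖ ≤ ε₀)
      (fun x => f (0, x)) (fun x => f (1, x)) := by
  classical
  obtain ⟨P, hP⟩ : ∃ P : (X → Y) → Prop, P = fun φ => Bijective φ ∧ (∀ x, LD n φ x) ∧
    ∃ t ∈ Icc (0 : ℝ) 1, ∀ x, ‖e (φ x) - e (f (t, x))‖ ≤ ε₀ := ⟨_, rfl⟩
  rw [← hP]
  -- the numbers
  obtain ⟨θ, hθ0, hθ1, hcθ⟩ : ∃ θ : ℝ, 0 < θ ∧ θ < 1 ∧
      (ρ₁ ^ 2 - 1) * (Real.sqrt m / θ) < 1 + ρ₁ ^ 2 := by
    have hcont : ContinuousAt (fun t : ℝ => (ρ₁ ^ 2 - 1) * (Real.sqrt m / (1 - t))) 0 := by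
      apply ContinuousAt.mul continuousAt_const
      apply ContinuousAt.div continuousAt_const (by fun_prop)
      norm_num
    have h1 : ∀ᶠ t in 𝓝 (0 : ℝ), (ρ₁ ^ 2 - 1) * (Real.sqrt m / (1 - t)) < 1 + ρ₁ ^ 2 := by
      apply hcont.eventually_lt_const
      show (ρ₁ ^ 2 - 1) * (Real.sqrt m / (1 - 0)) < 1 + ρ₁ ^ 2
      simpa using hc
    obtain ⟨t, ⟨h2, h3⟩, h4⟩ := ((h1.filter_mono nhdsWithin_le_nhds).and
      (small 1 (D := 1) one_pos)).and self_mem_nhdsWithin |>.exists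
    have h5 : 0 < t := h4
    exact ⟨1 - t, by linarith, by linarith, h2⟩
  obtain ⟨K⟩ := exists_ker m hθ0 hθ1
  have hιc : Continuous ι := hTM.smooth.continuous
  have hF : Continuous fun p : ℝ × X => e (f p) := hT.smooth.continuous.comp hf
  obtain ⟨χ, hχ, -, hχ1⟩ := exists_cut hιc hinj hι1 (S := univ) (U := univ) isCompact_univ
    isOpen_univ (subset_refl _)
  have hχ1' : ∀ x, χ (ι x) = 1 := fun x => (hχ1 x (mem_univ x)).self_of_nhds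
  obtain ⟨H, ρ, hH, hρ, hHn⟩ := exists_HF hTM hF
  have hHe : ∀ t x, ∀ᶠ p in 𝓝 (ι x), H (t, p) = e (f (t, πM p)) := by
    intro t x
    filter_upwards [closedBall_mem_nhds (ι x) hρ] with p hp
    rw [mem_closedBall, dist_eq_norm] at hp
    exact hHn t x p hp
  have hval : ∀ t x, H (t, ι x) = e (f (t, x)) := by
    intro t x
    rw [(hHe t x).self_of_nhds, hTM.retr]
  have hHt : ∀ t, Continuous fun p => H (t, p) := fun t => by fun_prop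
  -- the homeomorphisms
  have hfc : ∀ t, Continuous fun x => f (t, x) := fun t => by fun_prop
  obtain ⟨g, hg⟩ : ∃ g : ℝ → X ≃ₜ Y, ∀ t x, g t x = f (t, x) :=
    ⟨fun t => Continuous.homeoOfEquivCompactToT2 (f := Equiv.ofBijective _ (hfb t)) (hfc t),
      fun t x => rfl⟩
  obtain ⟨τ₁, hτ₁0, hτu⟩ := PP_unif hT one_pos
  obtain ⟨τ, hτd⟩ : ∃ τ, τ = min τ₁ ε₀ := ⟨_, rfl⟩
  have hτ0 : 0 < τ := by rw [hτd]; exact lt_min hτ₁0 hε₀
  have hτ : ∀ y : Y, ∀ p : E d, ‖p - e y‖ ≤ τ → ContMDiffAt (𝓡 d) (𝓡 n) ∞ π p :=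
    fun y p hp => (hτu y p (hp.trans (by rw [hτd]; exact min_le_left _ _))).1
  have hmono : ∀ t ∈ Icc (0 : ℝ) 1, ∀ φ : X → Y,
      (Bijective φ ∧ (∀ x, LD n φ x) ∧ ∀ x, ‖e (φ x) - e (g t x)‖ ≤ τ) → P φ := by
    rintro t ht φ ⟨a1, a2, a3⟩
    rw [hP]
    refine ⟨a1, a2, t, ht, fun x => ?_⟩
    have := a3 x
    rw [hg] at this
    exact this.trans (by rw [hτd]; exact min_le_right _ _)
  -- the ends
  have hend : ∀ j ∈ Icc (0 : ℝ) 1, (∀ x, LD n (fun x => f (j, x)) x) → ∃ δ₀ : ℝ, 0 < δ₀ ∧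
      ∀ δ, 0 < δ → δ ≤ δ₀ → δ ≤ 1 / 4 →
        (∀ x, ∀ᶠ p in 𝓝 (ι x), ContDiffAt ℝ ∞ (Mol K (fun p => H (j, p)) fun z => δ * χ z) p) →
        Iso n P (fun x => f (j, x))
          (fun x => π (Mol K (fun p => H (j, p)) (fun z => δ * χ z) (ι x))) := by
    intro j hjI hj
    have e1 := fun x => imm_end hTM hT (g := fun x => f (j, x)) (hHe j x) (hj x)
    obtain ⟨ε, hε, hnear⟩ := iso_near hTM hT hn hτ0 hτ (g j) (Q₀ := fun p => H (j, p))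
      (fun x => (e1 x).1) (fun x => by
        rw [hval, hg, sub_self, norm_zero]
        positivity) (fun x => (e1 x).2)
    obtain ⟨δ₀, hδ₀, hmol⟩ := mol_end K (isCompact_range hιc) (by
      rintro _ ⟨x, rfl⟩
      exact (hι1 x).le.trans (by norm_num)) (hHt j) (by
      rintro _ ⟨x, rfl⟩
      exact (e1 x).1) hε
    refine ⟨δ₀, hδ₀, fun δ hδ hδ1 hδ2 hsm => ?_⟩
    have hfun : (fun x => f (j, x)) = fun x => π (H (j, ι x)) := by
      funext x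
      rw [hval, hT.retr]
    rw [hfun]
    have h2 := fun x => hmol (fun z => δ * χ z) δ (hχ.rad hδ hδ2) hδ hδ1 (ι x) (mem_range_self x)
      (by rw [hχ1', mul_one]) (by
        have h3 : (fun z => δ * χ z) =ᶠ[𝓝 (ι x)] fun _ => δ := by
          filter_upwards [hχ1 x (mem_univ x)] with p hp
          rw [hp, mul_one]
        rw [h3.fderiv_eq]
        simp)
    exact (hnear _ hsm (fun x => (h2 x).1) (fun x w hw => (h2 x).2 w hw.1)).mono (hmono j hjI)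
  obtain ⟨δ₀, hδ₀, hend0⟩ := hend 0 (by simp) h0
  obtain ⟨δ₁, hδ₁, hend1⟩ := hend 1 (by simp) h1
  -- the scale
  have hpt : ∀ q : ℝ × X, q ∈ Icc (0 : ℝ) 1 ×ˢ (univ : Set X) →
      ∃ V ∈ 𝓝 q.2, ∃ s > 0, ∀ δ, 0 < δ → δ ≤ s → ∀ t, |t - q.1| ≤ s → ∀ x ∈ V,
      ImmAt ι πM e π (Mol K (fun p => H (t, p)) (fun z => δ * χ z)) x := by
    intro q hq
    exact bl_pt K hθ0 hTM hnM (fun x => (hι1 x).le) hT hn hH hρ hHn hχ
      (fun x => hχ1 x (mem_univ x)) hρ₁ hcθ (hloc q.1 hq.1 q.2)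
  obtain ⟨sm, hsm, himm⟩ : ∃ sm : ℝ, 0 < sm ∧ ∀ δ, 0 < δ → δ ≤ sm → ∀ t ∈ Icc (0 : ℝ) 1,
      ∀ x, ImmAt ι πM e π (Mol K (fun p => H (t, p)) (fun z => δ * χ z)) x := by
    choose! V hV s hs himm using hpt
    have hcomp : IsCompact (Icc (0 : ℝ) 1 ×ˢ (univ : Set X)) := isCompact_Icc.prod isCompact_univ
    have hcov : ∀ q ∈ Icc (0 : ℝ) 1 ×ˢ (univ : Set X), ball q.1 (s q) ×ˢ V q ∈ 𝓝 q := by
      intro q hq
      exact prod_mem_nhds (ball_mem_nhds _ (hs q hq)) (hV q hq)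
    obtain ⟨t, htI, ht⟩ := hcomp.elim_nhds_subcover _ hcov
    obtain ⟨sm, hsm, hsm'⟩ := exists_lower' (fun q : t => s q.1) (fun q => hs _ (htI _ q.2))
    refine ⟨sm, hsm, fun δ hδ0 hδ t' ht' x => ?_⟩
    have h2 := ht (show (t', x) ∈ Icc (0 : ℝ) 1 ×ˢ (univ : Set X) from ⟨ht', mem_univ x⟩)
    rw [mem_iUnion₂] at h2
    obtain ⟨q, hq, hq1, hq2⟩ := h2
    simp only at hq1 hq2
    rw [mem_ball, Real.dist_eq] at hq1
    exact himm q (htI q hq) δ hδ0 (hδ.trans (hsm' ⟨q, hq⟩)) t' hq1.le x hq2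
  -- uniform continuity
  obtain ⟨η, hη, hηu⟩ : ∃ η : ℝ, 0 < η ∧ ∀ t ∈ Icc (0 : ℝ) 1, ∀ p ∈ closedBall (0 : E m) 2,
      ∀ q ∈ closedBall (0 : E m) 2, ‖p - q‖ ≤ η → ‖H (t, p) - H (t, q)‖ ≤ τ / 4 := by
    have h1 := ((isCompact_Icc (a := (0 : ℝ)) (b := 1)).prod
      (isCompact_closedBall (0 : E m) 2)).uniformContinuousOn_of_continuous hH.continuousOn
    rw [Metric.uniformContinuousOn_iff] at h1
    obtain ⟨θ', hθ', h2⟩ := h1 (τ / 4) (by positivity)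
    refine ⟨θ' / 2, by positivity, fun t ht p hp q hq hpq => ?_⟩
    have h3 := h2 (t, p) ⟨ht, hp⟩ (t, q) ⟨ht, hq⟩ (by
      rw [Prod.dist_eq, dist_self, dist_eq_norm]
      simp only
      exact max_lt hθ' (by linarith))
    rw [dist_eq_norm] at h3
    exact h3.le
  obtain ⟨δ, hδ⟩ : ∃ δ, δ = min sm (min (min δ₀ δ₁) (min η (1 / 4))) := ⟨_, rfl⟩
  have hδ0 : 0 < δ := by rw [hδ]; positivity
  have hr1 : δ ≤ sm := by rw [hδ]; exact min_le_left _ _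
  have hr4 : δ ≤ min δ₀ δ₁ := by rw [hδ]; exact (min_le_right _ _).trans (min_le_left _ _)
  have hr2 : δ ≤ η := by
    rw [hδ]
    exact (min_le_right _ _).trans ((min_le_right _ _).trans (min_le_left _ _))
  have hr3 : δ ≤ 1 / 4 := by
    rw [hδ]
    exact (min_le_right _ _).trans ((min_le_right _ _).trans (min_le_right _ _))
  have himm' := himm δ hδ0 hr1
  obtain ⟨cc, hcc⟩ : ∃ cc : E m → ℝ, cc = fun z => δ * χ z := ⟨_, rfl⟩
  have hRad : Rad cc := by rw [hcc]; exact hχ.rad hδ0 hr3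
  have hccι : ∀ x, cc (ι x) = δ := fun x => by rw [hcc]; simp only [hχ1', mul_one]
  have hccd : ∀ x, fderiv ℝ cc (ι x) = 0 := by
    intro x
    have h3 : cc =ᶠ[𝓝 (ι x)] fun _ => δ := by
      filter_upwards [hχ1 x (mem_univ x)] with p hp
      rw [hcc]
      simp only [hp, mul_one]
    rw [h3.fderiv_eq]
    simp
  have hsm : ∀ t x, ∀ᶠ p in 𝓝 (ι x), ContDiffAt ℝ ∞ (Mol K (fun p => H (t, p)) cc) p := by
    intro t x
    have h3 : ∀ᶠ p in 𝓝 (ι x), 0 < cc p := by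
      apply hRad.smooth.continuous.continuousAt.eventually_const_lt
      rw [hccι]
      exact hδ0
    filter_upwards [h3] with p hp
    exact moll_pos K (hHt t).continuousOn hRad.smooth hRad.le (fun z hz => hRad.zero z hz.le) hp
  have hclose : ∀ t ∈ Icc (0 : ℝ) 1, ∀ x,
      ‖Mol K (fun p => H (t, p)) cc (ι x) - e (g t x)‖ ≤ τ / 4 := by
    intro t ht x
    rw [hg, ← hval]
    apply mol_close' K (G := fun p => H (t, p)) (hHt t).continuousOn hRad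
      ((hι1 x).le.trans (by norm_num))
    intro q hq
    rw [hccι] at hq
    apply hηu t ht q _ (ι x) _ (hq.trans hr2)
    · rw [mem_closedBall_zero_iff]
      have h4 := norm_add_le (q - ι x) (ι x)
      rw [sub_add_cancel] at h4
      have h5 := hι1 x
      linarith
    · rw [mem_closedBall_zero_iff]
      have h5 := hι1 x
      linarith
  rw [← hcc] at himm'
  -- nearby times
  have hconn : ∀ t ∈ Icc (0 : ℝ) 1, ∀ᶠ t' in 𝓝[Icc (0 : ℝ) 1] t,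
      Iso n P (fun x => π (Mol K (fun p => H (t, p)) cc (ι x)))
        (fun x => π (Mol K (fun p => H (t', p)) cc (ι x))) := by
    intro t ht
    obtain ⟨ε, hε, hnear⟩ := iso_near hTM hT hn hτ0 hτ (g t)
      (Q₀ := Mol K (fun p => H (t, p)) cc) (hsm t) (hclose t ht) (himm' t ht)
    have h3 := mol_t K hθ0 hH hRad t (δ := δ) (β := 0) hδ0 hε
    filter_upwards [h3.filter_mono nhdsWithin_le_nhds] with t' ht'
    have h4 := fun x => ht' (ι x) ((hι1 x).le.trans (by norm_num)) (hccι x)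
      (by rw [hccd x, norm_zero])
    exact (hnear _ (hsm t') (fun x => (h4 x).1) (fun x w hw => (h4 x).2 w hw.1)).mono (hmono t ht)
  have hpath := isPreconnected_Icc.induction₂ (s := Icc (0 : ℝ) 1)
    (fun t t' => Iso n P (fun x => π (Mol K (fun p => H (t, p)) cc (ι x)))
        (fun x => π (Mol K (fun p => H (t', p)) cc (ι x)))) hconn
    (fun _ _ _ _ _ _ h h' => h.trans h') (fun _ _ _ _ h => h.symm)
    (show (0 : ℝ) ∈ Icc (0 : ℝ) 1 by simp) (show (1 : ℝ) ∈ Icc (0 : ℝ) 1 by simp)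
  have ha := hend0 δ hδ0 (hr4.trans (min_le_left _ _)) hr3 (by rw [← hcc]; exact hsm 0)
  have hb := hend1 δ hδ0 (hr4.trans (min_le_right _ _)) hr3 (by rw [← hcc]; exact hsm 1)
  rw [← hcc] at ha hb
  exact (ha.trans hpath).trans hb.symm

/-- **Paths of homeomorphisms of closed manifolds.** -/
theorem path_closed [CompactSpace X] [ConnectedSpace X] [CompactSpace Y] [T2Space Y]
    (ι : X → E m) (hι : ContMDiff (𝓡 n) (𝓡 m) ∞ ι)
    (hιinj : Injective ι)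
    (hιimm : ∀ (y : X) (v : E n),
      fderiv ℝ (fun t => ι ((chartAt (E n) y).symm t)) (chartAt (E n) y y) v = 0 → v = 0)
    (e : Y → E d) (he : ContMDiff (𝓡 n) (𝓡 d) ∞ e) (hinj : Injective e)
    (himm : ∀ (y : Y) (v : E n),
      fderiv ℝ (fun t => e ((chartAt (E n) y).symm t)) (chartAt (E n) y y) v = 0 → v = 0)
    {f : ℝ × X → Y} (hf : Continuous f) (hfb : ∀ t, Bijective fun x => f (t, x))
    {ρ₁ : ℝ} (hρ₁ : 1 ≤ ρ₁) (hc : (ρ₁ ^ 2 - 1) * Real.sqrt m < 1 + ρ₁ ^ 2)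
    (hloc : ∀ t₀ ∈ Icc (0 : ℝ) 1, ∀ x, BLat ι ρ₁ (fun t x => e (f (t, x))) t₀ x)
    (h0 : ∀ x, LD n (fun x => f (0, x)) x) (h1 : ∀ x, LD n (fun x => f (1, x)) x) {ε₀ : ℝ}
    (hε₀ : 0 < ε₀) :
    Iso n (fun φ : X → Y => Bijective φ ∧ (∀ x, LD n φ x) ∧
        ∃ t ∈ Icc (0 : ℝ) 1, ∀ x, ‖e (φ x) - e (f (t, x))‖ ≤ ε₀)
      (fun x => f (0, x)) (fun x => f (1, x)) := by
  have hneX : Nonempty X := inferInstance
  have hneY : Nonempty Y := by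
    obtain ⟨x⟩ := hneX
    exact ⟨f (0, x)⟩
  obtain ⟨π, hT, hn⟩ := exists_tub_near e he hinj himm
  -- the scaled embedding
  obtain ⟨Bd, hBd⟩ := (isCompact_range hι.continuous).exists_bound_of_continuousOn
    (f := fun p : E m => p) continuousOn_id
  obtain ⟨x₀⟩ := hneX
  have hBd0 : 0 ≤ Bd := (norm_nonneg _).trans (hBd _ (mem_range_self x₀))
  obtain ⟨lam, hlamd⟩ : ∃ lam, lam = (Bd + 1)⁻¹ := ⟨_, rfl⟩
  have hlam : 0 < lam := by rw [hlamd]; positivity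
  obtain ⟨ι', hι'⟩ : ∃ ι' : X → E m, ι' = fun x => lam • ι x := ⟨_, rfl⟩
  have hι's : ContMDiff (𝓡 n) (𝓡 m) ∞ ι' := by
    rw [hι']
    exact (contMDiff_iff_contDiff.2 (contDiff_const_smul lam)).comp hι
  have hι'i : Injective ι' := by
    intro a b hab
    rw [hι'] at hab
    exact hιinj (smul_right_injective _ hlam.ne' hab)
  have hchart : ∀ y : X, HasFDerivAt (fun t => ι ((chartAt (E n) y).symm t))
      (fderiv ℝ (fun t => ι ((chartAt (E n) y).symm t)) (chartAt (E n) y y))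
      (chartAt (E n) y y) := by
    intro y
    have h1 : ContDiffAt ℝ ∞ (fun t => ι ((chartAt (E n) y).symm t)) (chartAt (E n) y y) :=
      contMDiffAt_iff_contDiffAt.1 ((hι _).comp _ (chart_symm_LD y).contMDiffAt)
    exact (h1.differentiableAt (by simp)).hasFDerivAt
  have hι'imm : ∀ (y : X) (v : E n),
      fderiv ℝ (fun t => ι' ((chartAt (E n) y).symm t)) (chartAt (E n) y y) v = 0 → v = 0 := by
    intro y v hv
    have h1 : HasFDerivAt (fun t => ι' ((chartAt (E n) y).symm t))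
        (lam • fderiv ℝ (fun t => ι ((chartAt (E n) y).symm t)) (chartAt (E n) y y))
        (chartAt (E n) y y) := by
      rw [hι']
      exact (hchart y).const_smul lam
    rw [h1.fderiv, _root_.smul_apply, smul_eq_zero] at hv
    exact hιimm y v (hv.resolve_left hlam.ne')
  have hι'1 : ∀ x, ‖ι' x‖ < 1 := by
    intro x
    rw [hι']
    simp only
    rw [norm_smul, Real.norm_of_nonneg hlam.le, hlamd, ← div_eq_inv_mul, div_lt_one (by linarith)]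
    have := hBd _ (mem_range_self x)
    linarith
  obtain ⟨πM, hTM, hnM⟩ := exists_tub_near ι' hι's hι'i hι'imm
  refine path_tub hTM hnM hι'i hι'1 hT hn hf hfb hρ₁ hc ?_ h0 h1 hε₀
  intro t₀ ht₀ x
  obtain ⟨U, hU, s, hs, h⟩ := hloc t₀ ht₀ x
  refine ⟨U, hU, s, hs, fun t ht => ?_⟩
  obtain ⟨a, ha, hab⟩ := h t ht
  refine ⟨a / lam, by positivity, fun p hp q hq => ?_⟩
  have h2 : a / lam * ‖ι' p - ι' q‖ = a * ‖ι p - ι q‖ := by
    rw [hι']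
    simp only
    rw [← smul_sub, norm_smul, Real.norm_of_nonneg hlam.le]
    field_simp
  rw [h2]
  exact hab p hp q hq

theorem suff_bl (n : ℕ) (X Y : Type) [TopologicalSpace X] [T2Space X] [CompactSpace X]
    [ConnectedSpace X] [ChartedSpace (EuclideanSpace ℝ (Fin n)) X] [IsManifold (𝓡 n) ∞ X]
    [TopologicalSpace Y] [T2Space Y] [CompactSpace Y]
    [ChartedSpace (EuclideanSpace ℝ (Fin n)) Y] [IsManifold (𝓡 n) ∞ Y]
    (m d : ℕ) (ι : X → EuclideanSpace ℝ (Fin m))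
    (hι : ContMDiff (𝓡 n) (𝓡 m) ∞ ι ∧ Injective ι ∧
      ∀ (y : X) (v : EuclideanSpace ℝ (Fin n)),
        fderiv ℝ (fun t => ι ((chartAt (EuclideanSpace ℝ (Fin n)) y).symm t))
          (chartAt (EuclideanSpace ℝ (Fin n)) y y) v = 0 → v = 0)
    (e : Y → EuclideanSpace ℝ (Fin d))
    (he : ContMDiff (𝓡 n) (𝓡 d) ∞ e ∧ Injective e ∧
      ∀ (y : Y) (v : EuclideanSpace ℝ (Fin n)),
        fderiv ℝ (fun t => e ((chartAt (EuclideanSpace ℝ (Fin n)) y).symm t))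
          (chartAt (EuclideanSpace ℝ (Fin n)) y y) v = 0 → v = 0)
    (ρ : ℝ) (hρ : 1 ≤ ρ) (hρm : ρ ^ 2 * (Real.sqrt m - 1) < Real.sqrt m + 1)
    (φ₀ φ₁ : X → Y) (h0 : ∃ Φ : X ≃ₘ^∞⟮𝓡 n, 𝓡 n⟯ Y, ∀ x, Φ x = φ₀ x)
    (h1 : ∃ Φ : X ≃ₘ^∞⟮𝓡 n, 𝓡 n⟯ Y, ∀ x, Φ x = φ₁ x)
    (f : ℝ × X → Y)
    (hf : ContinuousOn f (Icc (0 : ℝ) 1 ×ˢ univ) ∧
      (∀ t ∈ Icc (0 : ℝ) 1, Bijective (fun x => f (t, x))) ∧
      (∀ x, f (0, x) = φ₀ x) ∧ ∀ x, f (1, x) = φ₁ x)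
    (hfa : ∀ t₀ ∈ Icc (0 : ℝ) 1, ∀ x : X, ∃ U ∈ 𝓝 x, ∃ s > 0, ∀ t ∈ Icc (0 : ℝ) 1,
      |t - t₀| ≤ s → ∃ a > 0, ∀ p ∈ U, ∀ q ∈ U,
        a * ‖ι p - ι q‖ ≤ ‖e (f (t, p)) - e (f (t, q))‖ ∧
        ‖e (f (t, p)) - e (f (t, q))‖ ≤ ρ * (a * ‖ι p - ι q‖))
    (ε : ℝ) (hε : ε > 0) :
    ∃ K : ℝ × X → Y, (ContMDiff ((𝓘(ℝ, ℝ)).prod (𝓡 n)) (𝓡 n) ∞ K ∧
      (∀ t, ∃ Φ : X ≃ₘ^∞⟮𝓡 n, 𝓡 n⟯ Y, ∀ x, Φ x = K (t, x)) ∧
      (∀ x, K (0, x) = φ₀ x) ∧ ∀ x, K (1, x) = φ₁ x) ∧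
      ∀ t, ∃ t' ∈ Icc (0 : ℝ) 1, ∀ x, ‖e (K (t, x)) - e (f (t', x))‖ ≤ ε := by
  obtain ⟨Φ₀, e0⟩ := h0
  obtain ⟨Φ₁, e1⟩ := h1
  obtain ⟨hfc, hfb, hf0, hf1⟩ := hf
  obtain ⟨cl, hcl⟩ : ∃ cl : ℝ → ℝ, cl = fun t => max 0 (min 1 t) := ⟨_, rfl⟩
  have hclc : Continuous cl := by rw [hcl]; fun_prop
  have hclI : ∀ t, cl t ∈ Icc (0 : ℝ) 1 := fun t => by
    rw [hcl]
    exact (clamp_abs (t := t) (t₀ := 0) (by simp)).1
  have hcla : ∀ t t₀, t₀ ∈ Icc (0 : ℝ) 1 → |cl t - t₀| ≤ |t - t₀| := fun t t₀ h => by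
    rw [hcl]
    exact (clamp_abs h).2
  have hclx : ∀ t ∈ Icc (0 : ℝ) 1, cl t = t := by
    intro t ht
    have := hcla t t ht
    rw [sub_self, abs_zero] at this
    have h2 := abs_nonpos_iff.1 this
    linarith
  obtain ⟨f', hf'⟩ : ∃ f' : ℝ × X → Y, f' = fun q => f (cl q.1, q.2) := ⟨_, rfl⟩
  have hf'e : ∀ t x, f' (t, x) = f (cl t, x) := fun t x => by rw [hf']
  have hf'c : Continuous f' := by
    rw [hf']
    apply hfc.comp_continuous (by fun_prop)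
    intro q
    exact ⟨hclI _, mem_univ _⟩
  have hf'b : ∀ t, Bijective fun x => f' (t, x) := by
    intro t
    have : (fun x => f' (t, x)) = fun x => f (cl t, x) := funext fun x => hf'e t x
    rw [this]
    exact hfb _ (hclI t)
  have hz : (fun x => f' (0, x)) = Φ₀ := by
    funext x
    rw [hf'e, hclx 0 (by simp), hf0, e0]
  have ho : (fun x => f' (1, x)) = Φ₁ := by
    funext x
    rw [hf'e, hclx 1 (by simp), hf1, e1]
  obtain ⟨K, k1, k2, k3, k4⟩ := path_closed ι hι.1 hι.2.1 hι.2.2 e he.1 he.2.1 he.2.2 hf'c hf'b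
    hρ (by nlinarith) (fun t₀ ht₀ x => by
      obtain ⟨U, hU, s, hs, h⟩ := hfa t₀ ht₀ x
      refine ⟨U, hU, s, hs, fun t' ht' => ?_⟩
      obtain ⟨a, ha, hab⟩ := h (cl t') (hclI t') ((hcla t' t₀ ht₀).trans ht')
      refine ⟨a, ha, fun p hp q hq => ?_⟩
      have h7 := hab p hp q hq
      rw [← hf'e, ← hf'e] at h7
      exact h7)
    (fun x => by rw [hz]; exact Φ₀.isLocalDiffeomorph x)
    (fun x => by rw [ho]; exact Φ₁.isLocalDiffeomorph x) hε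
  refine ⟨K, ⟨k1, fun t => ?_, fun x => ?_, fun x => ?_⟩, fun t => ?_⟩
  · obtain ⟨b1, b2, -⟩ := k2 t
    have hl : IsLocalDiffeomorph (𝓡 n) (𝓡 n) ∞ (fun x => K (t, x)) := fun x => b2 x
    exact ⟨hl.diffeomorphOfBijective b1, fun x => rfl⟩
  · rw [k3 x]
    show f' (0, x) = φ₀ x
    rw [hf'e, hclx 0 (by simp), hf0]
  · rw [k4 x]
    show f' (1, x) = φ₁ x
    rw [hf'e, hclx 1 (by simp), hf1]
  · obtain ⟨-, -, t', ht', h⟩ := k2 t
    refine ⟨t', ht', fun x => ?_⟩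
    have h2 := h x
    rwa [hf'e, hclx t' ht'] at h2

end Pool.Agent.U987.BI
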